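import Pool.Agent.W5h42.GS.Orb

set_option autoImplicit false

open Filter Topology Set Metric

namespace Pool.Agent.W5h42.GS

open Pool.Agent.H721R2 Pool.Agent.H789R2.AN Pool.Agent.W5h70.AJ

variable {X : Type*} [MetricSpace X]

theorem SR.o_le {g : X ≃ₜ X} {ε : ℝ} {x y : X} (h : SR g.symm ε x y) (n : ℤ) (hn : n ≤ 0) :
    dist (o g x n) (o g y n) ≤ ε := by
  have := h (-n).toNat
  rw [← o_nat, ← o_nat, o_symm, o_symm] at this
  have h1 : -((-n).toNat : ℤ) = n := by omega
  rwa [h1] at this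

/-- Iterates of unstable plaques are dense in a minimal attractor. -/
theorem min_dense [CompactSpace X] {g : X ≃ₜ X} {c : ℝ} (h : LP g c) {A : Set X}
    (hA : MinAtt g A) {x : X} (hx : x ∈ A) {ε₀ : ℝ} (hε₀ : 0 < ε₀) {V : Set X} (hV : IsOpen V)
    (hVA : (V ∩ A).Nonempty) (N : ℕ) :
    ∃ n ≥ N, ∃ y, SR g.symm ε₀ x y ∧ g^[n] y ∈ V := by
  -- the omega-limit set
  set ω : Set X := {y | MapClusterPt y atTop (fun n : ℕ => g^[n] x)} with hω
  have hωne : ω.Nonempty := by
    obtain ⟨y, hy⟩ := exists_clusterPt_of_compactSpace (map (fun n : ℕ => g^[n] x) atTop)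
    exact ⟨y, hy⟩
  have hωchar : ∀ y, y ∈ ω ↔ ∀ W ∈ 𝓝 y, ∀ N : ℕ, ∃ n ≥ N, g^[n] x ∈ W := by
    intro y
    rw [hω, mem_ofPred_eq, mapClusterPt_iff_frequently]
    exact forall₂_congr fun W _ => frequently_atTop
  have hωinv : ∀ y, g y ∈ ω ↔ y ∈ ω := by
    intro y
    rw [hωchar, hωchar]
    constructor
    · intro hy W hW N
      have h1 : g.symm ⁻¹' W ∈ 𝓝 (g y) := by
        apply g.symm.continuous.continuousAt.preimage_mem_nhds
        rwa [g.symm_apply_apply]
      obtain ⟨n, hn, h2⟩ := hy _ h1 (N + 1)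
      refine ⟨n - 1, by omega, ?_⟩
      have h3 : g^[n] x = g (g^[n - 1] x) := by
        rw [← Function.iterate_succ_apply' g (n - 1)]
        congr 1
        omega
      rw [mem_preimage, h3, g.symm_apply_apply] at h2
      exact h2
    · intro hy W hW N
      have h1 : g ⁻¹' W ∈ 𝓝 y := g.continuous.continuousAt.preimage_mem_nhds hW
      obtain ⟨n, hn, h2⟩ := hy _ h1 N
      refine ⟨n + 1, by omega, ?_⟩
      rw [Function.iterate_succ_apply']
      exact h2
  have hωA : ω ⊆ A := by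
    intro y hy
    rw [← hA.1.closed.closure_eq, mem_closure_iff_nhds]
    intro W hW
    obtain ⟨n, -, hn⟩ := (hωchar y).mp hy W hW 0
    exact ⟨_, hn, (inv_iter hA.1.inv n x).mpr hx⟩
  set S : Set X := {w | ∃ y ∈ ω, WS g.symm y w} with hS
  have hSA : S ⊆ A := by
    rintro w ⟨y, hy, hyw⟩
    exact hA.1.sat y (hωA hy) w hyw
  have hSsat : ∀ w ∈ S, ∀ w', WS g.symm w w' → w' ∈ S := by
    rintro w ⟨y, hy, hyw⟩ w' hww'
    exact ⟨y, hy, hyw.trans hww'⟩
  have hSinv : ∀ w, g w ∈ S ↔ w ∈ S := by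
    intro w
    constructor
    · rintro ⟨y, hy, hyw⟩
      refine ⟨g.symm y, (inv_symm hωinv y).mpr hy, ?_⟩
      have := hyw.mapIter (φ := g.symm) (fun _ => rfl) 1
      simpa using this
    · rintro ⟨y, hy, hyw⟩
      refine ⟨g y, (hωinv y).mpr hy, ?_⟩
      rw [← WS.iter 1]
      simpa using hyw
  have hatt : IsAtt g (closure S) := by
    refine ⟨isClosed_closure, ?_, ?_, closure_sat h hSsat⟩
    · obtain ⟨y, hy⟩ := hωne
      exact ⟨y, subset_closure ⟨y, hy, WS.refl _ _⟩⟩
    · intro w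
      have e1 : g ⁻¹' S = S := by
        ext w
        exact hSinv w
      have e2 := g.preimage_closure S
      rw [e1] at e2
      rw [← mem_preimage, e2]
  have hcl : A ⊆ closure S := hA.2 _ hatt (closure_minimal hSA hA.1.closed)
  obtain ⟨v, hv, hvA⟩ := hVA
  have hvS : v ∈ closure S := hcl hvA
  obtain ⟨w, hwV, y, hy, hyw⟩ := mem_closure_iff.mp hvS V hV hv
  obtain ⟨η, hη, hball⟩ := Metric.isOpen_iff.mp hV w hwV
  set ε := min (min (η / 2) c) ε₀ with hε
  have hε0 : 0 < ε := lt_min (lt_min (half_pos hη) h.c_pos) hε₀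
  obtain ⟨δ, hδ, hlp⟩ := h.lp ε hε0
  obtain ⟨m, hm⟩ := hyw.eventually_lt (half_pos hδ)
  have h1 := hm m le_rfl
  have h2 : {y' | dist (g.symm^[m] y') (g.symm^[m] y) < δ / 2} ∈ 𝓝 y := by
    have hcont : Continuous fun s => dist (g.symm^[m] s) (g.symm^[m] y) :=
      (g.symm.continuous.iterate m).dist continuous_const
    exact (isOpen_lt hcont continuous_const).mem_nhds (by
      show dist (g.symm^[m] y) (g.symm^[m] y) < δ / 2
      rw [dist_self]; linarith)
  obtain ⟨n, hn, h3⟩ := (hωchar y).mp hy _ h2 (m + N)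
  have e1 : g.symm^[m] (g^[n] x) = g^[n - m] x := by
    have : g^[n] x = g^[m] (g^[n - m] x) := by
      rw [← Function.iterate_add_apply]
      congr 1
      omega
    rw [this, iterL]
  have h3' : dist (g^[n - m] x) (g.symm^[m] y) < δ / 2 := by
    rw [← e1]; exact h3
  have h4 : dist (g.symm^[m] w) (g^[n - m] x) < δ := by
    have := dist_triangle (g.symm^[m] w) (g.symm^[m] y) (g^[n - m] x)
    rw [dist_comm (g.symm^[m] w) (g.symm^[m] y), dist_comm (g.symm^[m] y) (g^[n - m] x)] at this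
    linarith
  obtain ⟨z, hz1, hz2⟩ := hlp _ _ h4
  refine ⟨n, by omega, g.symm^[n - m] z, ?_, hball ?_⟩
  · intro k
    have h5 := hz2 (k + (n - m))
    rw [Function.iterate_add_apply, Function.iterate_add_apply, iterL] at h5
    exact h5.trans (min_le_right _ _)
  · have e2 : g^[n] (g.symm^[n - m] z) = g^[m] z := by
      have : g^[n] (g.symm^[n - m] z) = g^[m] (g^[n - m] (g.symm^[n - m] z)) := by
        rw [← Function.iterate_add_apply g m (n - m)]
        congr 1
        omega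
      rw [this, iterR]
    rw [e2, Metric.mem_ball, dist_comm]
    have h6 := hz1 m
    rw [iterR] at h6
    have h7 : ε ≤ η / 2 := (min_le_left _ _).trans (min_le_left _ _)
    linarith

/-- Pseudo-orbits in `A` which follow the orbit of `w` up to time `0` and that of `w'` from time
`K` on. -/
def Conn (g : X ≃ₜ X) (A : Set X) (δ : ℝ) (K : ℕ) (w w' : X) : Prop :=
  ∃ ζ : ℤ → X, PO g δ ζ ∧ (∀ n ≤ 0, ζ n = o g w n) ∧ (∀ n : ℤ, K ≤ n → ζ n = o g w' (n - K)) ∧
    ∀ n, ζ n ∈ A

theorem Conn.mono {g : X ≃ₜ X} {A : Set X} {δ δ' : ℝ} {K : ℕ} {w w' : X}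
    (h : Conn g A δ K w w') (hδ : δ ≤ δ') : Conn g A δ' K w w' := by
  obtain ⟨ζ, h1, h2⟩ := h
  exact ⟨ζ, h1.mono hδ, h2⟩

theorem exists_conn [CompactSpace X] {g : X ≃ₜ X} {c : ℝ} (h : LP g c) {A : Set X}
    (hA : MinAtt g A) {w w' : X} (hw : w ∈ A) (hw' : w' ∈ A) {δ : ℝ} (hδ : 0 < δ) :
    ∃ K : ℕ, 2 ≤ K ∧ Conn g A δ K w w' := by
  have hu : UniformContinuous g := CompactSpace.uniformContinuous_of_continuous g.continuous
  rw [Metric.uniformContinuous_iff] at hu
  obtain ⟨δ₁, hδ₁, h1⟩ := hu (δ / 2) (half_pos hδ)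
  obtain ⟨n, hn, y, hy, hyV⟩ := min_dense h hA hw (ε₀ := min (δ₁ / 2) c)
    (lt_min (half_pos hδ₁) h.c_pos) (V := ball w' (δ / 2)) isOpen_ball
    ⟨w', mem_ball_self (half_pos hδ), hw'⟩ 2
  have hyA : y ∈ A := hA.1.sat w hw y (WS.of_SR (h.cU _ _ (hy.mono (min_le_right _ _))))
  have hd : dist (g w) (g y) < δ / 2 := by
    apply h1
    have h2 := hy 0
    have h3 : min (δ₁ / 2) c ≤ δ₁ / 2 := min_le_left _ _
    simp only [Function.iterate_zero, id_eq] at h2
    linarith
  refine ⟨n, hn, glue n (glue 1 (fun k => o g w (k + 0)) (fun k => o g y (k + 0)))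
    (fun k => o g w' (k + (-n))), ?_, ?_, ?_, ?_⟩
  · have hP1 := (PO.orb g le_rfl w 0).glue (PO.orb g le_rfl y 0) (τ := 1) (ν := δ / 2) (by
      simp only [add_zero]
      have e1 : ∀ x : X, o g x 1 = g x := fun x => by
        have := o_succ g x 0
        simpa using this
      rw [e1, e1]
      exact hd.le)
    have hP2 := hP1.glue ((PO.orb g le_rfl w' (-n)).mono (by linarith : (0:ℝ) ≤ 0 + δ / 2))
      (τ := n) (ν := δ / 2) (by
        rw [glue_ge (by omega)]
        simp only [add_zero, add_neg_cancel, o_zero]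
        rw [o_nat]
        exact (mem_ball.mp hyV).le)
    exact hP2.mono (by linarith)
  · intro k hk
    rw [glue_lt (by omega), glue_lt (by omega), add_zero]
  · intro k hk
    rw [glue_ge hk]
    rfl
  · intro k
    unfold glue
    split_ifs
    · exact (o_mem hA.1.inv _ _).mpr hw
    · exact (o_mem hA.1.inv _ _).mpr hyA
    · exact (o_mem hA.1.inv _ _).mpr hw'

theorem Conn.right {g : X ≃ₜ X} {A : Set X} {δ : ℝ} {K : ℕ} {w p : X}
    (h : Conn g A δ K w p) (hp : g p = p) (m : ℕ) : Conn g A δ (K + m) w p := by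
  obtain ⟨ζ, h1, h2, h3, h4⟩ := h
  refine ⟨ζ, h1, h2, fun n hn => ?_, h4⟩
  rw [h3 n (by push_cast at hn; omega), o_fixed hp, o_fixed hp]

theorem Conn.left {g : X ≃ₜ X} {A : Set X} {δ : ℝ} {K : ℕ} {w p : X}
    (h : Conn g A δ K p w) (hp : g p = p) (m : ℕ) : Conn g A δ (K + m) p w := by
  obtain ⟨ζ, h1, h2, h3, h4⟩ := h
  refine ⟨fun n => ζ (n + (-m)), h1.shift _, fun n hn => ?_, fun n hn => ?_, fun n => h4 _⟩
  · show ζ (n + (-m)) = _
    rw [h2 _ (by omega), o_fixed hp, o_fixed hp]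
  · show ζ (n + (-m)) = _
    rw [h3 _ (by push_cast at hn; omega)]
    congr 1
    push_cast
    ring

/-- Uniform connections from and to a fixed point. -/
theorem conn_uniform [CompactSpace X] {g : X ≃ₜ X} {c : ℝ} (h : LP g c) {A : Set X}
    (hA : MinAtt g A) {p : X} (hp : p ∈ A) (hgp : g p = p) {δ : ℝ} (hδ : 0 < δ) :
    ∃ K₀ : ℕ, ∀ K ≥ K₀, ∀ w ∈ A, Conn g A δ K p w ∧ Conn g A δ K w p := by
  have hu : UniformContinuous g := CompactSpace.uniformContinuous_of_continuous g.continuous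
  rw [Metric.uniformContinuous_iff] at hu
  obtain ⟨δ₁, hδ₁, hu1⟩ := hu (δ / 2) (half_pos hδ)
  suffices hs : ∃ K₀ : ℕ, ∀ K ≥ K₀, ∀ w ∈ A, w ∈ A → Conn g A δ K p w ∧ Conn g A δ K w p by
    obtain ⟨K₀, hK₀⟩ := hs
    exact ⟨K₀, fun K hK w hw => hK₀ K hK w hw hw⟩
  refine hA.1.closed.isCompact.induction_on
    (p := fun s => ∃ K₀ : ℕ, ∀ K ≥ K₀, ∀ w ∈ s, w ∈ A → Conn g A δ K p w ∧ Conn g A δ K w p)
    ?_ ?_ ?_ ?_
  · exact ⟨0, fun K _ w hw => absurd hw (notMem_empty _)⟩
  · rintro s t hst ⟨K₀, hK₀⟩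
    exact ⟨K₀, fun K hK w hw => hK₀ K hK w (hst hw)⟩
  · rintro s t ⟨K₁, hK₁⟩ ⟨K₂, hK₂⟩
    refine ⟨max K₁ K₂, fun K hK w hw hwA => ?_⟩
    rcases hw with hw | hw
    · exact hK₁ K (le_trans (le_max_left _ _) hK) w hw hwA
    · exact hK₂ K (le_trans (le_max_right _ _) hK) w hw hwA
  · intro w hw
    obtain ⟨K₁, hK₁2, ζ, a1, a2, a3, a4⟩ := exists_conn h hA hp hw (half_pos hδ)
    obtain ⟨K₂, hK₂2, ζ', b1, b2, b3, b4⟩ := exists_conn h hA hw hp (half_pos hδ)
    refine ⟨ball w (min δ₁ (δ / 2)), mem_nhdsWithin_of_mem_nhds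
      (ball_mem_nhds _ (lt_min hδ₁ (half_pos hδ))), max K₁ K₂, fun K hK v hv hvA => ?_⟩
    have hv1 : dist v w < δ₁ := (mem_ball.mp hv).trans_le (min_le_left _ _)
    have hv2 : dist v w < δ / 2 := (mem_ball.mp hv).trans_le (min_le_right _ _)
    constructor
    · have hc : Conn g A δ K₁ p v := by
        refine ⟨glue K₁ ζ (fun n => o g v (n + (-K₁))), ?_, ?_, ?_, ?_⟩
        · have := a1.glue ((PO.orb g le_rfl v (-K₁)).mono (half_pos hδ).le) (τ := K₁) (ν := δ / 2)
            (by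
              rw [a3 _ le_rfl]
              simp only [sub_self, o_zero, add_neg_cancel]
              rw [dist_comm]; exact hv2.le)
          exact this.mono (by linarith)
        · intro n hn
          rw [glue_lt (by omega), a2 n hn]
        · intro n hn
          rw [glue_ge hn]
          rfl
        · intro n
          unfold glue
          split_ifs
          · exact a4 n
          · exact (o_mem hA.1.inv _ _).mpr hvA
      obtain ⟨m, rfl⟩ := Nat.exists_eq_add_of_le (le_trans (le_max_left K₁ K₂) hK)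
      exact hc.left hgp m
    · have hc : Conn g A δ K₂ v p := by
        refine ⟨glue 1 (fun n => o g v (n + 0)) ζ', ?_, ?_, ?_, ?_⟩
        · intro n
          rcases lt_trichotomy (n + 1) 1 with h1 | h1 | h1
          · rw [glue_lt h1, glue_lt (by omega)]
            exact PO.orb g hδ.le v 0 n
          · rw [glue_ge h1.ge, glue_lt (by omega)]
            have e0 : n = 0 := by omega
            subst e0
            have h2 := b1 0
            rw [b2 0 le_rfl, o_zero] at h2
            have h3 := hu1 hv1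
            have e3 : o g v (0 + 0) = v := by simp
            show dist (g (o g v (0 + 0))) (ζ' (0 + 1)) ≤ δ
            rw [e3]
            refine (dist_triangle (g v) (g w) _).trans ?_
            have h4 := add_le_add h3.le h2
            rwa [add_halves] at h4
          · rw [glue_ge h1.le, glue_ge (by omega)]
            linarith [b1 n]
        · intro n hn
          rw [glue_lt (by omega), add_zero]
        · intro n hn
          rw [glue_ge (by omega), b3 n hn]
        · intro n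
          unfold glue
          split_ifs
          · exact (o_mem hA.1.inv _ _).mpr hvA
          · exact b4 n
      obtain ⟨m, rfl⟩ := Nat.exists_eq_add_of_le (le_trans (le_max_right K₁ K₂) hK)
      exact hc.right hgp m

/-- Reversal of connections. -/
theorem conn_rev [CompactSpace X] (g : X ≃ₜ X) {δ : ℝ} (hδ : 0 < δ) :
    ∃ δ' > 0, ∀ (A : Set X) (K : ℕ) (w w' : X), Conn g.symm A δ' K w w' →
      Conn g A δ K w' w := by
  have hu : UniformContinuous g := CompactSpace.uniformContinuous_of_continuous g.continuous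
  rw [Metric.uniformContinuous_iff] at hu
  obtain ⟨δ₁, hδ₁, hu1⟩ := hu δ hδ
  refine ⟨δ₁ / 2, half_pos hδ₁, ?_⟩
  rintro A K w w' ⟨ζ, h1, h2, h3, h4⟩
  refine ⟨fun n => ζ (K - n), ?_, ?_, ?_, fun n => h4 _⟩
  · intro n
    have h5 := h1 (K - n - 1)
    have e1 : (K : ℤ) - n - 1 + 1 = K - n := by ring
    rw [e1] at h5
    have h6 := hu1 (h5.trans_lt (half_lt_self hδ₁))
    rw [g.apply_symm_apply, dist_comm] at h6
    have e2 : (K : ℤ) - (n + 1) = K - n - 1 := by ring
    show dist (g (ζ (K - n))) (ζ (K - (n + 1))) ≤ δ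
    rw [e2]
    exact h6.le
  · intro n hn
    show ζ (K - n) = _
    rw [h3 _ (by omega), o_symm]
    congr 1
    ring
  · intro n hn
    show ζ (K - n) = _
    rw [h2 _ (by omega), o_symm]
    congr 1
    ring

/-- Points whose backward orbit stays near an attractor belong to it. -/
theorem mem_of_near [CompactSpace X] {g : X ≃ₜ X} {c : ℝ} (h : LP g c) : ∃ δ > 0, ∀ A,
    IsAtt g A → ∀ y, (∀ n : ℤ, n ≤ 0 → ∃ a ∈ A, dist (o g y n) a < δ) → y ∈ A := by
  obtain ⟨δ, hδ, hn⟩ := h.near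
  refine ⟨δ, hδ, fun A hA y hy => ?_⟩
  rw [← hA.closed.closure_eq, Metric.mem_closure_iff]
  intro ε hε
  obtain ⟨m, hm⟩ := ((tendsto_order.mp (tendsto_half c)).2 ε hε).exists
  obtain ⟨a, ha, hda⟩ := hy (-m) (by omega)
  obtain ⟨z, hz, hsr⟩ := hn A hA a ha _ hda
  refine ⟨g^[m] z, (inv_iter hA.inv m z).mpr hz, ?_⟩
  have h1 := h.cS _ _ hsr m
  rw [← o_nat g (o g y (-m)), ← o_add, neg_add_cancel, o_zero] at h1
  linarith

/-- Minimal attractors contain periodic points. -/
theorem exists_periodic [CompactSpace X] {E : Type*} [NormedAddCommGroup E] [NormedSpace ℝ E]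
    (S : HypSys X E) {A : Set X} (hA : MinAtt S.g A) :
    ∃ p ∈ A, ∃ N : ℕ, 1 ≤ N ∧ S.g^[N] p = p := by
  obtain ⟨c, hc⟩ := exists_LP S
  obtain ⟨δ, hδ, hmem⟩ := mem_of_near hc
  obtain ⟨ε₀, hε₀, hcl⟩ := closing S
  have hK := S.one_le_K
  have hK0 : 0 < S.K := by linarith
  set ε := min ε₀ (δ / (16 * S.K)) with hε
  have hε0 : 0 < ε := lt_min hε₀ (by positivity)
  obtain ⟨w, hw⟩ := hA.1.nonempty
  obtain ⟨K, hK2, ζ, h1, h2, h3, h4⟩ := exists_conn hc hA hw hw hε0
  have hζK : ζ K = w := by rw [h3 _ le_rfl]; simp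
  have hζ0 : ζ 0 = w := by rw [h2 _ le_rfl]; simp
  obtain ⟨p, hp1, hp2⟩ := hcl ε hε0 (min_le_left _ _) K (fun k => ζ k) (by omega)
    (fun k _ => by
      have := h1 k
      push_cast
      exact this) (by
      have := h1 (K - 1 : ℕ)
      have e : ((K - 1 : ℕ) : ℤ) + 1 = K := by omega
      rw [e, hζK] at this
      show dist (S.g (ζ ((K - 1 : ℕ) : ℤ))) (ζ ((0 : ℕ) : ℤ)) ≤ ε
      rw [Nat.cast_zero, hζ0]
      exact this)
  refine ⟨p, hmem A hA.1 p (fun n _ => ?_), K, by omega, hp1⟩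
  have hK0' : (0 : ℤ) < K := by omega
  have e1 : o S.g p n = S.g^[(n % K).toNat] p := by
    have h5 : 0 ≤ n % K := Int.emod_nonneg n hK0'.ne'
    rw [← o_nat]
    have h6 : n = K * (n / K) + n % K := (Int.mul_ediv_add_emod n K).symm
    have h7 : o S.g p (K * (n / K)) = p := by
      have h8 : ∀ m : ℤ, o S.g p (K * m) = p := by
        intro m
        have h9 : ∀ m : ℕ, o S.g p (K * m) = p := by
          intro m
          have : (K : ℤ) * m = ((K * m : ℕ) : ℤ) := by push_cast; rfl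
          rw [this, o_nat, Function.iterate_mul]
          exact Function.iterate_fixed hp1 m
        obtain ⟨l, rfl | rfl⟩ := m.eq_nat_or_neg
        · exact h9 l
        · have h10 := o_add S.g p (K * l) (K * (-l))
          rw [h9] at h10
          rw [← h10]
          have : (K : ℤ) * l + K * (-l) = 0 := by ring
          rw [this, o_zero]
      exact h8 _
    conv_lhs => rw [h6, o_add, h7]
    congr 1
    omega
  have h5 : n % K < K := Int.emod_lt_of_pos n hK0'
  have h6 := hp2 (n % K).toNat (by omega)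
  refine ⟨_, h4 ((n % K).toNat : ℤ), ?_⟩
  rw [e1]
  refine lt_of_le_of_lt h6 ?_
  have h7 : ε ≤ δ / (16 * S.K) := min_le_right _ _
  calc 8 * S.K * ε ≤ 8 * S.K * (δ / (16 * S.K)) := by
        apply mul_le_mul_of_nonneg_left h7 (by positivity)
    _ = δ / 2 := by field_simp; norm_num
    _ < δ := half_lt_self hδ

end Pool.Agent.W5h42.GS
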