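import Pool.Agent.W5h42.GS.Null

set_option autoImplicit false

open Filter Topology Set Metric MeasureTheory

namespace Pool.Agent.W5h42.GS

open Pool.Agent.H721R2 Pool.Agent.H789R2.AN Pool.Agent.W5h70.AJ

variable {X : Type*} [MetricSpace X]

/-- The heteroclinic point is separated from the ends and from its orbit. -/
theorem sep_theta {g : X ≃ₜ X} {A R : Set X} (hA : IsAtt g A)
    (hR : IsAtt g.symm R) (hAR : Disjoint A R) {p r x : X} (hp : p ∈ A) (hr : r ∈ R)
    (hgp : g p = p) (hgr : g r = r) (hxr : WS g.symm x r) (hxp : WS g x p) :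
    ∃ θ > 0, (∀ a ∈ A, θ ≤ dist x a) ∧ (∀ a ∈ R, θ ≤ dist x a) ∧
      ∀ q : ℤ, q ≠ 0 → θ ≤ dist x (o g x q) := by
  have hxA : x ∉ A := by
    intro hx
    have h1 : r ∈ A := hA.sat x hx r hxr
    exact Set.disjoint_left.mp hAR h1 hr
  have hxR : x ∉ R := by
    intro hx
    have h1 : p ∈ R := hR.sat x hx p (by rwa [Homeomorph.symm_symm])
    exact Set.disjoint_left.mp hAR hp h1
  obtain ⟨θ₁, hθ₁, h1⟩ := Metric.isOpen_iff.mp hA.closed.isOpen_compl x hxA
  obtain ⟨θ₂, hθ₂, h2⟩ := Metric.isOpen_iff.mp hR.closed.isOpen_compl x hxR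
  have h1' : ∀ a ∈ A, θ₁ ≤ dist x a := by
    intro a ha
    by_contra hcon
    exact h1 (mem_ball.mpr (by rw [dist_comm]; exact not_le.mp hcon)) ha
  have h2' : ∀ a ∈ R, θ₂ ≤ dist x a := by
    intro a ha
    by_contra hcon
    exact h2 (mem_ball.mpr (by rw [dist_comm]; exact not_le.mp hcon)) ha
  set θ₃ := min θ₁ θ₂ with hθ₃
  have hθ₃0 : 0 < θ₃ := lt_min hθ₁ hθ₂
  obtain ⟨m₁, hm₁0, hm₁⟩ := dist_o_tendsto hxp (half_pos hθ₃0)
  obtain ⟨m₂, hm₂0, hm₂⟩ := dist_o_tendsto hxr (half_pos hθ₃0)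
  -- no periodicity
  have hper : ∀ q : ℤ, q ≠ 0 → o g x q ≠ x := by
    have hpos : ∀ q : ℕ, 1 ≤ q → o g x q ≠ x := by
      intro q hq hx
      have h3 : ∀ n : ℕ, o g x (q * n) = x := by
        intro n
        induction n with
        | zero => simp
        | succ n ih =>
          have : (q : ℤ) * ((n + 1 : ℕ) : ℤ) = q * n + q := by push_cast; ring
          rw [this, o_add, ih, hx]
      have h4 := hm₁ (q * (m₁.toNat + 1 : ℕ)) (by
        have : m₁ ≤ (m₁.toNat + 1 : ℕ) := by omega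
        nlinarith)
      rw [h3, o_fixed hgp] at h4
      have := h1' p hp
      have := min_le_left θ₁ θ₂
      linarith
    intro q hq hx
    obtain ⟨n, rfl | rfl⟩ := q.eq_nat_or_neg
    · exact hpos n (by omega) hx
    · apply hpos n (by omega)
      have := o_add g x (-n) n
      rw [hx] at this
      rw [← this]
      simp
  have hfinite : ∀ N : ℕ, ∃ θ > 0, ∀ q : ℤ, q ≠ 0 → -N ≤ q → q ≤ N → θ ≤ dist x (o g x q) := by
    intro N
    induction N with
    | zero => exact ⟨1, one_pos, fun q hq h3 h4 => absurd (by omega : q = 0) hq⟩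
    | succ N ih =>
      obtain ⟨θ, hθ, h3⟩ := ih
      have h4 : 0 < dist x (o g x ((N : ℤ) + 1)) :=
        dist_pos.mpr (hper _ (by omega)).symm
      have h5 : 0 < dist x (o g x (-((N : ℤ) + 1))) :=
        dist_pos.mpr (hper _ (by omega)).symm
      refine ⟨min θ (min (dist x (o g x ((N : ℤ) + 1))) (dist x (o g x (-((N : ℤ) + 1))))),
        lt_min hθ (lt_min h4 h5), fun q hq h6 h7 => ?_⟩
      push_cast at h6 h7
      rcases eq_or_ne q (N + 1) with rfl | h8
      · exact (min_le_right _ _).trans (min_le_left _ _)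
      · rcases eq_or_ne q (-(N + 1)) with rfl | h9
        · exact (min_le_right _ _).trans (min_le_right _ _)
        · exact (min_le_left _ _).trans (h3 q hq (by omega) (by omega))
  obtain ⟨θ₄, hθ₄, h3⟩ := hfinite (m₁ + m₂).toNat
  refine ⟨min (θ₃ / 2) θ₄, lt_min (half_pos hθ₃0) hθ₄, fun a ha => ?_, fun a ha => ?_,
    fun q hq => ?_⟩
  · have := h1' a ha
    have h4 : min (θ₃ / 2) θ₄ ≤ θ₃ / 2 := min_le_left _ _
    have h5 : θ₃ ≤ θ₁ := min_le_left _ _
    linarith
  · have := h2' a ha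
    have h4 : min (θ₃ / 2) θ₄ ≤ θ₃ / 2 := min_le_left _ _
    have h5 : θ₃ ≤ θ₂ := min_le_right _ _
    linarith
  · rcases le_or_gt m₁ q with h4 | h4
    · have h5 := hm₁ q h4
      rw [o_fixed hgp] at h5
      have h6 := h1' p hp
      have h7 := dist_triangle x (o g x q) p
      have h8 : min (θ₃ / 2) θ₄ ≤ θ₃ / 2 := min_le_left _ _
      have h9 : θ₃ ≤ θ₁ := min_le_left _ _
      linarith
    · rcases le_or_gt q (-m₂) with h5 | h5
      · have h6 := hm₂ (-q) (by omega)
        rw [o_symm, o_symm, neg_neg, o_fixed hgr] at h6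
        have h7 := h2' r hr
        have h8 := dist_triangle x (o g x q) r
        have h9 : min (θ₃ / 2) θ₄ ≤ θ₃ / 2 := min_le_left _ _
        have h10 : θ₃ ≤ θ₂ := min_le_right _ _
        linarith
      · exact (min_le_right _ _).trans (h3 q hq (by omega) (by omega))

/-- Uniform approach to the attractor. -/
theorem approach [CompactSpace X] {g : X ≃ₜ X} {c : ℝ} (h : LP g c) {A : Set X}
    (hA : IsAtt g A) {x' : X} (hx : x' ∈ Bas g A) {ν : ℝ} (hν : 0 < ν) :
    ∃ κ > 0, ∃ k₁ : ℕ, ∀ z ∈ ball x' κ, ∀ n : ℤ, k₁ ≤ n → ∃ a ∈ A, dist (o g z n) a ≤ ν := by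
  obtain ⟨δ, hδ, hn⟩ := h.near
  obtain ⟨a, ha, hxa⟩ := hx
  obtain ⟨m, hm0, hm⟩ := dist_o_tendsto hxa (half_pos hδ)
  obtain ⟨κ, hκ, hcl⟩ := close_iter g m.toNat (half_pos hδ)
  obtain ⟨N, hN⟩ := eventually_atTop.mp ((tendsto_order.mp (tendsto_half c)).2 ν hν)
  refine ⟨κ, hκ, m.toNat + N, fun z hz n hn' => ?_⟩
  have h1 := hcl z x' (mem_ball.mp hz) m (by omega) (by omega)
  have h2 := hm m le_rfl
  obtain ⟨w, hw, hsr⟩ := hn A hA (o g a m) ((o_mem hA.inv a m).mpr ha) (o g z m) (by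
    have := dist_triangle (o g z m) (o g x' m) (o g a m)
    linarith)
  refine ⟨o g w (n - m), (o_mem hA.inv w _).mpr hw, ?_⟩
  have h3 := h.cS _ _ hsr (n - m).toNat
  rw [← o_nat, ← o_nat, ← o_add] at h3
  have e1 : ((n - m).toNat : ℤ) = n - m := by omega
  rw [e1] at h3
  have e2 : m + (n - m) = n := by ring
  rw [e2] at h3
  exact h3.trans (hN _ (by omega)).le

theorem null_basin [CompactSpace X] [MeasurableSpace X] [BorelSpace X] {g : X ≃ₜ X} {c : ℝ}
    (h : Sys g c) {A R : Set X} (hA : MinAtt g A) (hR : MinAtt g.symm R) (hAR : Disjoint A R)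
    {p r x : X} (hp : p ∈ A) (hr : r ∈ R) (hgp : g p = p) (hgr : g r = r)
    (hxr : WS g.symm x r) (hxp : WS g x p) {φ : X → ℝ} {B : ℝ} (hφ : ∀ y, |φ y| ≤ B)
    {δφ D : ℝ} (hδφ : 0 < δφ) (hbow : Bow g φ δφ D) (μ : Measure X) [IsFiniteMeasure μ] {C : ℝ}
    (hC : 0 ≤ C) (hG : GibbsD g φ C μ) : μ (Bas g A ∩ Bas g.symm R) = 0 := by
  refine measure_null_of_locally_null _ fun x' hx' => ?_
  have hcp := h.lp.c_pos
  obtain ⟨θ, hθ, hθA, hθR, hθx⟩ := sep_theta hA.1 hR.1 hAR hp hr hgp hgr hxr hxp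
  obtain ⟨δs, hδs, hseg⟩ := h.seg
  set ρ := min (min (c / 8) (δφ / 4)) (δs / 4) with hρ
  have hρ0 : 0 < ρ := by positivity
  have hρ1 : ρ ≤ c / 8 := (min_le_left _ _).trans (min_le_left _ _)
  have hρ2 : ρ ≤ δφ / 4 := (min_le_left _ _).trans (min_le_right _ _)
  have hρ3 : ρ ≤ δs / 4 := min_le_right _ _
  set ε := min (ρ / 4) (θ / 8) with hε
  have hε0 : 0 < ε := by positivity
  have hε1 : ε ≤ ρ / 4 := min_le_left _ _
  have hε2 : ε ≤ θ / 8 := min_le_right _ _
  obtain ⟨δ, hδ, hsh⟩ := h.sh ε hε0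
  set η := min ε (δ / 16) with hη
  have hη0 : 0 < η := by positivity
  obtain ⟨νA, hνA, KA, hKA⟩ := cover h hA hp hgp hη0
  have hgr' : g.symm r = r := by rw [Homeomorph.symm_apply_eq, hgr]
  obtain ⟨νR, hνR, KR, hKR⟩ := cover h.symm hR hr hgr' hη0
  obtain ⟨KA', hKA'⟩ := conn_uniform h.lp hA hp hgp (δ := δ / 4) (by positivity)
  obtain ⟨δ', hδ', hrev⟩ := conn_rev g (δ := δ / 4) (by positivity)
  obtain ⟨KR', hKR'⟩ := conn_uniform h.lp.symm hR hr hgr' hδ'
  set ν := min (min νA νR) (δ / 16) with hν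
  have hν0 : 0 < ν := by positivity
  obtain ⟨κA, hκA, kA, hkA⟩ := approach h.lp hA.1 hx'.1 hν0
  obtain ⟨κR, hκR, kR, hkR⟩ := approach h.lp.symm hR.1 hx'.2 hν0
  obtain ⟨m₁, hm₁0, hm₁⟩ := dist_o_tendsto hxp hη0
  obtain ⟨m₂, hm₂0, hm₂⟩ := dist_o_tendsto hxr hη0
  obtain ⟨κc, hκc, hcl⟩ := close_iter g (kA + kR) (half_pos hcp)
  obtain ⟨m, hm⟩ := ((tendsto_order.mp (tendsto_half (2 * c))).2 (δ / 16) (by positivity)).exists
  set κ := min (min κA κR) κc with hκ
  have hκ0 : 0 < κ := by positivity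
  set K := KA + KR + KA' + KR' + (kA + kR) with hK
  let P : Par g A R p r x φ := {
    c := c
    ρ := ρ
    ε := ε
    δ := δ
    η := η
    ν := ν
    θ := θ
    B := B
    D := D
    K := K
    k := m₁.toNat + m₂.toNat + 1
    k₁ := kA + kR
    m := m
    T := ball x' κ
    sys := h
    gp := hgp
    gr := hgr
    ρ_pos := hρ0
    ε_pos := hε0
    δ_pos := hδ
    η_pos := hη0
    ρc := by linarith
    ερ := by linarith
    ηε := min_le_left _ _
    ηδ := min_le_right _ _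
    νδ := min_le_right _ _
    εθ := by linarith
    θA := hθA
    θR := hθR
    θx := hθx
    seg := fun u v a b hab => hseg u v a b fun n h1 h2 => (hab n h1 h2).trans (by linarith)
    sh := fun ξ hξ => hsh ξ hξ
    connA := fun w hw => (hKA' K (by omega) w hw).1
    connR := fun w hw => hrev R K r w (hKR' K (by omega) w hw).1
    k_pos := by omega
    xr := fun n hn => by
      have := (hm₂ n (by push_cast at hn; omega)).le
      rwa [o_symm, o_symm, o_fixed hgr] at this
    xp := fun n hn => by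
      have := (hm₁ n (by push_cast at hn; omega)).le
      rwa [o_fixed hgp] at this
    hm := by linarith
    T_open := isOpen_ball
    TA := fun z hz n hn => hkA z (ball_subset_ball ((min_le_left _ _).trans (min_le_left _ _)) hz)
      n (by push_cast at hn; omega)
    TR := fun z hz n hn => by
      have := hkR z (ball_subset_ball ((min_le_left _ _).trans (min_le_right _ _)) hz)
        n (by push_cast at hn; omega)
      rwa [o_symm] at this
    Tc := fun z hz z' hz' n h1 h2 => by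
      have h3 := hcl z x' (mem_ball.mp (ball_subset_ball (min_le_right _ _) hz)) n h1 h2
      have h4 := hcl z' x' (mem_ball.mp (ball_subset_ball (min_le_right _ _) hz')) n h1 h2
      have := dist_triangle_right (o g z n) (o g z' n) (o g x' n)
      linarith
    φB := hφ
    bow := fun u v n huv => hbow u v n fun k hk => (huv k hk).trans (by linarith) }
  have hnull : μ.real P.T = 0 := by
    refine P.null μ hC hG hp hr ?_ ?_ (show kA + kR ≤ K by omega)
    · intro z hz j hj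
      refine hKA K (by omega) _ j hj z fun n h1 _ => ?_
      obtain ⟨a, ha, hd⟩ := P.TA z hz n h1
      exact ⟨a, ha, hd.trans ((min_le_left _ _).trans (min_le_left _ _))⟩
    · intro z hz j hj
      refine hKR K (by omega) _ j hj z fun n h1 _ => ?_
      obtain ⟨a, ha, hd⟩ := P.TR z hz n h1
      rw [o_symm]
      exact ⟨a, ha, hd.trans ((min_le_left _ _).trans (min_le_right _ _))⟩
  refine ⟨ball x' κ, mem_nhdsWithin_of_mem_nhds (ball_mem_nhds _ hκ0), ?_⟩
  exact (measureReal_eq_zero_iff (measure_ne_top _ _)).mp hnull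

end Pool.Agent.W5h42.GS
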