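import Mathlib

set_option autoImplicit false

namespace Pool.Agent.W5h42.GS

/-- Super-exponential growth is impossible. -/
theorem comb (a b : ℕ → ℝ) (Q C₁ : ℝ) (L L' h : ℕ) (ha : ∀ n, 0 < a n) (hb : ∀ n, 0 < b n)
    (hQ : 1 ≤ Q) (ha' : ∀ n, a n ≤ Q ^ (n + 1)) (hb' : ∀ n, b n ≤ Q ^ (n + 1))
    (hstar : ∀ i j, h ≤ i → h ≤ j → ∑ k ∈ Finset.range (i + j - L + 1), b k * a (i + j - L - k) ≤
      C₁ * (b (i + L') * a (j + L'))) : False := by
  set H := h + L' with hH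
  have hmin : ∀ n, 2 * H ≤ n → ∃ i, H ≤ i ∧ i + H ≤ n ∧ ∀ i', H ≤ i' → i' + H ≤ n →
      b i * a (n - i) ≤ b i' * a (n - i') := by
    intro n hn
    obtain ⟨i, hi, hi'⟩ := Finset.exists_min_image (Finset.Icc H (n - H))
      (fun i => b i * a (n - i)) ⟨H, Finset.mem_Icc.mpr ⟨le_rfl, by omega⟩⟩
    rw [Finset.mem_Icc] at hi
    refine ⟨i, hi.1, by omega, fun i' h1 h2 => hi' i' (Finset.mem_Icc.mpr ⟨h1, by omega⟩)⟩
  choose! I hI1 hI2 hI3 using hmin
  set s : ℕ → ℝ := fun n => b (I n) * a (n - I n) with hs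
  have hspos : ∀ n, 0 < s n := fun n => mul_pos (hb _) (ha _)
  have hsle : ∀ n, 2 * H ≤ n → s n ≤ Q ^ (n + 2) := by
    intro n hn
    have h1 := hI3 n hn H le_rfl (by omega)
    refine h1.trans ?_
    calc b H * a (n - H) ≤ Q ^ (H + 1) * Q ^ (n - H + 1) :=
          mul_le_mul (hb' _) (ha' _) (ha _).le (by positivity)
      _ = Q ^ (n + 2) := by
          rw [← pow_add]
          congr 1
          omega
  set L₂ := 2 * L' + L with hL₂
  set C := max C₁ 1 with hC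
  have hC1 : 0 < C := lt_of_lt_of_le one_pos (le_max_right _ _)
  have hrec : ∀ n, 2 * H ≤ n → ((n : ℝ) - 2 * H + 1) * s n ≤ C * s (n + L₂) := by
    intro n hn
    have hn2 : 2 * H ≤ n + L₂ := by omega
    have h1 := hI1 _ hn2
    have h2 := hI2 _ hn2
    have h3 := hstar (I (n + L₂) - L') (n + L₂ - I (n + L₂) - L') (by omega) (by omega)
    have e1 : I (n + L₂) - L' + (n + L₂ - I (n + L₂) - L') - L = n := by omega
    have e2 : I (n + L₂) - L' + L' = I (n + L₂) := by omega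
    have e3 : n + L₂ - I (n + L₂) - L' + L' = n + L₂ - I (n + L₂) := by omega
    rw [e1, e2, e3] at h3
    have h4 : ∑ k ∈ Finset.Icc H (n - H), s n ≤ ∑ k ∈ Finset.range (n + 1), b k * a (n - k) := by
      refine (Finset.sum_le_sum fun k hk => ?_).trans
        (Finset.sum_le_sum_of_subset_of_nonneg ?_ fun k _ _ => (mul_pos (hb _) (ha _)).le)
      · rw [Finset.mem_Icc] at hk
        exact hI3 n hn k hk.1 (by omega)
      · intro k hk
        rw [Finset.mem_Icc] at hk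
        rw [Finset.mem_range]
        omega
    rw [Finset.sum_const, Nat.card_Icc, nsmul_eq_mul] at h4
    have e4 : ((n - H + 1 - H : ℕ) : ℝ) = (n : ℝ) - 2 * H + 1 := by
      have : n - H + 1 - H = n + 1 - 2 * H := by omega
      rw [this, Nat.cast_sub (by omega)]
      push_cast
      ring
    rw [e4] at h4
    refine h4.trans (h3.trans ?_)
    exact mul_le_mul_of_nonneg_right (le_max_left _ _) (hspos _).le
  set M : ℝ := 2 * Q ^ L₂ with hM
  have hQL : 0 < Q ^ L₂ := by positivity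
  obtain ⟨n₀, hn₀⟩ := exists_nat_ge (C * M + 2 * H)
  have hn₀H : 2 * H ≤ n₀ := by
    have h1 : (0 : ℝ) ≤ C * M := by positivity
    have h2 : ((2 * H : ℕ) : ℝ) ≤ n₀ := by push_cast; linarith
    exact_mod_cast h2
  have hgrow : ∀ k : ℕ, M ^ k * s n₀ ≤ s (n₀ + L₂ * k) := by
    intro k
    induction k with
    | zero => simp
    | succ k ih =>
      have h1 := hrec (n₀ + L₂ * k) (by omega)
      have h2 : C * M ≤ ((n₀ + L₂ * k : ℕ) : ℝ) - 2 * H + 1 := by
        push_cast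
        have : (0 : ℝ) ≤ (L₂ : ℝ) * k := by positivity
        linarith
      have h3 : C * M * s (n₀ + L₂ * k) ≤ C * s (n₀ + L₂ * k + L₂) :=
        (mul_le_mul_of_nonneg_right h2 (hspos _).le).trans h1
      have h4 : M * s (n₀ + L₂ * k) ≤ s (n₀ + L₂ * k + L₂) := by
        rw [mul_assoc] at h3
        exact le_of_mul_le_mul_left h3 hC1
      have e : n₀ + L₂ * (k + 1) = n₀ + L₂ * k + L₂ := by ring
      rw [e, pow_succ]
      have hM0 : 0 ≤ M := by positivity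
      calc M ^ k * M * s n₀ = M * (M ^ k * s n₀) := by ring
        _ ≤ M * s (n₀ + L₂ * k) := mul_le_mul_of_nonneg_left ih hM0
        _ ≤ _ := h4
  have hbd : ∀ k : ℕ, 2 ^ k * s n₀ ≤ Q ^ (n₀ + 2) := by
    intro k
    have h1 := (hgrow k).trans (hsle _ (by omega))
    have h2 : M ^ k = 2 ^ k * (Q ^ L₂) ^ k := by rw [hM, mul_pow]
    have h3 : Q ^ (n₀ + L₂ * k + 2) = Q ^ (n₀ + 2) * (Q ^ L₂) ^ k := by
      rw [← pow_mul, ← pow_add]
      congr 1
      ring
    rw [h2, h3] at h1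
    have h4 : 0 < (Q ^ L₂) ^ k := by positivity
    have h5 : 2 ^ k * s n₀ * (Q ^ L₂) ^ k ≤ Q ^ (n₀ + 2) * (Q ^ L₂) ^ k := by
      calc 2 ^ k * s n₀ * (Q ^ L₂) ^ k = 2 ^ k * (Q ^ L₂) ^ k * s n₀ := by ring
        _ ≤ _ := h1
    exact le_of_mul_le_mul_right h5 h4
  obtain ⟨k, hk⟩ := pow_unbounded_of_one_lt (Q ^ (n₀ + 2) / s n₀) (one_lt_two)
  rw [div_lt_iff₀ (hspos _)] at hk
  linarith [hbd k]

end Pool.Agent.W5h42.GS
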