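import Pool.Agent.W5h42.GS.Cov

set_option autoImplicit false

open Filter Topology Set Metric MeasureTheory

namespace Pool.Agent.W5h42.GS

open Pool.Agent.H721R2 Pool.Agent.H789R2.AN Pool.Agent.W5h70.AJ

variable {X : Type*} [MetricSpace X]

/-- Constants of the construction. -/
structure Par (g : X ≃ₜ X) (A R : Set X) (p r x : X) (φ : X → ℝ) where
  c : ℝ
  ρ : ℝ
  ε : ℝ
  δ : ℝ
  η : ℝ
  ν : ℝ
  θ : ℝ
  B : ℝ
  D : ℝ
  K : ℕ
  k : ℕ
  k₁ : ℕ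
  m : ℕ
  T : Set X
  sys : Sys g c
  gp : g p = p
  gr : g r = r
  ρ_pos : 0 < ρ
  ε_pos : 0 < ε
  δ_pos : 0 < δ
  η_pos : 0 < η
  ρc : 4 * ρ ≤ c
  ερ : 4 * ε ≤ ρ
  ηε : η ≤ ε
  ηδ : η ≤ δ / 16
  νδ : ν ≤ δ / 16
  εθ : 8 * ε ≤ θ
  θA : ∀ a ∈ A, θ ≤ dist x a
  θR : ∀ a ∈ R, θ ≤ dist x a
  θx : ∀ q : ℤ, q ≠ 0 → θ ≤ dist x (o g x q)
  seg : ∀ (u v : X) (a b : ℤ), (∀ n, a ≤ n → n ≤ b → dist (o g u n) (o g v n) ≤ 4 * ρ) →
    ∀ n, a ≤ n → n ≤ b →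
      dist (o g u n) (o g v n) ≤ c * (1 / 2) ^ (n - a).toNat + c * (1 / 2) ^ (b - n).toNat
  sh : ∀ ξ : ℤ → X, PO g δ ξ → ∃ y, ∀ n, dist (o g y n) (ξ n) ≤ ε
  connA : ∀ w ∈ A, Conn g A (δ / 4) K p w
  connR : ∀ w ∈ R, Conn g R (δ / 4) K w r
  k_pos : 1 ≤ k
  xr : ∀ n : ℤ, k ≤ n → dist (o g x (-n)) r ≤ η
  xp : ∀ n : ℤ, k ≤ n → dist (o g x n) p ≤ η
  hm : 2 * (c * (1 / 2) ^ m) ≤ δ / 16
  T_open : IsOpen T
  TA : ∀ z ∈ T, ∀ n : ℤ, k₁ ≤ n → ∃ a ∈ A, dist (o g z n) a ≤ ν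
  TR : ∀ z ∈ T, ∀ n : ℤ, k₁ ≤ n → ∃ a ∈ R, dist (o g z (-n)) a ≤ ν
  Tc : ∀ z ∈ T, ∀ z' ∈ T, ∀ n : ℤ, -k₁ ≤ n → n ≤ k₁ → dist (o g z n) (o g z' n) ≤ c
  φB : ∀ y, |φ y| ≤ B
  bow : Bow g φ (4 * ρ) D

namespace Par

variable {g : X ≃ₜ X} {A R : Set X} {p r x : X} {φ : X → ℝ} (P : Par g A R p r x φ)

/-- The times of the construction. -/
def t₁ (i : ℕ) : ℤ := -i + P.m + P.K
def t₄ (j : ℕ) : ℤ := j - P.m - P.K

/-- The middle part of the pseudo-orbits. -/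
def core (i i' : ℕ) (α β : X) : ℤ → X :=
  glue (P.t₁ i + i' + 2 * P.k)
    (glue (P.t₁ i + i') (fun n => o g α (n + -(P.t₁ i + i')))
      (fun n => o g x (n + -(P.t₁ i + i' + P.k))))
    (fun n => o g β (n + -(P.t₁ i + i' + 2 * P.k)))

/-- Points which follow the middle part. -/
def Cyl (i j i' : ℕ) (α β : X) : Set X :=
  {y | ∀ n ∈ Finset.Ico (P.t₁ i) (P.t₄ j), dist (o g y n) (P.core i i' α β n) ≤ P.ε}

theorem isClosed_Cyl (i j i' : ℕ) (α β : X) : IsClosed (P.Cyl i j i' α β) := by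
  have : P.Cyl i j i' α β = ⋂ n ∈ Finset.Ico (P.t₁ i) (P.t₄ j),
      {y | dist (o g y n) (P.core i i' α β n) ≤ P.ε} := by
    ext y
    simp [Cyl]
  rw [this]
  exact isClosed_biInter fun n _ =>
    isClosed_le ((continuous_o g n).dist continuous_const) continuous_const

/-- The pieces of `T`. -/
def Pc (i j : ℕ) (α β : X) : Set X :=
  P.T ∩ {z | (∀ n ∈ Finset.Icc (P.k₁ : ℤ) j,
      dist (o g z n) (o g β (n - P.k₁ + P.K)) < 2 * P.ρ) ∧
    ∀ n ∈ Finset.Icc (P.k₁ : ℤ) i,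
      dist (o g z (-n)) (o g α (-(n - P.k₁ + P.K))) < 2 * P.ρ}

theorem isOpen_Pc (i j : ℕ) (α β : X) : IsOpen (P.Pc i j α β) := by
  refine P.T_open.inter ?_
  have : {z | (∀ n ∈ Finset.Icc (P.k₁ : ℤ) j,
      dist (o g z n) (o g β (n - P.k₁ + P.K)) < 2 * P.ρ) ∧
    ∀ n ∈ Finset.Icc (P.k₁ : ℤ) i,
      dist (o g z (-n)) (o g α (-(n - P.k₁ + P.K))) < 2 * P.ρ} =
    (⋂ n ∈ Finset.Icc (P.k₁ : ℤ) j, {z | dist (o g z n) (o g β (n - P.k₁ + P.K)) < 2 * P.ρ}) ∩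
    ⋂ n ∈ Finset.Icc (P.k₁ : ℤ) i,
      {z | dist (o g z (-n)) (o g α (-(n - P.k₁ + P.K))) < 2 * P.ρ} := by
    ext z
    simp
  rw [this]
  refine IsOpen.inter ?_ ?_
  · exact isOpen_biInter_finset fun n _ =>
      isOpen_lt ((continuous_o g n).dist continuous_const) continuous_const
  · exact isOpen_biInter_finset fun n _ =>
      isOpen_lt ((continuous_o g (-n)).dist continuous_const) continuous_const

theorem c_pos : 0 < P.c := P.sys.lp.c_pos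

theorem pair (i j : ℕ) {α β z z' : X} (hz : z ∈ P.Pc i j α β) (hz' : z' ∈ P.Pc i j α β) :
    (∀ n : ℤ, P.k₁ ≤ n → n ≤ j → dist (o g z n) (o g z' n) ≤ 4 * P.ρ) ∧
    ∀ n : ℤ, P.k₁ ≤ n → n ≤ i → dist (o g z (-n)) (o g z' (-n)) ≤ 4 * P.ρ := by
  constructor
  · intro n h1 h2
    have h3 := hz.2.1 n (Finset.mem_Icc.mpr ⟨h1, h2⟩)
    have h4 := hz'.2.1 n (Finset.mem_Icc.mpr ⟨h1, h2⟩)
    have := dist_triangle_right (o g z n) (o g z' n) (o g β (n - P.k₁ + P.K))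
    linarith
  · intro n h1 h2
    have h3 := hz.2.2 n (Finset.mem_Icc.mpr ⟨h1, h2⟩)
    have h4 := hz'.2.2 n (Finset.mem_Icc.mpr ⟨h1, h2⟩)
    have := dist_triangle_right (o g z (-n)) (o g z' (-n)) (o g α (-(n - P.k₁ + P.K)))
    linarith

theorem half_pow_le {c : ℝ} (hc : 0 < c) {m n : ℕ} (h : m ≤ n) :
    c * (1 / 2 : ℝ) ^ n ≤ c * (1 / 2) ^ m :=
  mul_le_mul_of_nonneg_left (pow_le_pow_of_le_one (by norm_num) (by norm_num) h) hc.le

/-- The pseudo-orbit. -/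
theorem exists_xi (i j : ℕ) (hi : 2 * P.m + P.k₁ ≤ i) (hj : 2 * P.m + P.k₁ ≤ j)
    {α' β' zs : X} (hzs : zs ∈ P.Pc i j α' β') :
    ∃ ζR ζA : ℤ → X, ∀ (i' j' : ℕ), (i' + j' + (2 * P.m + 2 * P.K + 2 * P.k) = i + j) →
      ∀ α ∈ St g.symm R r P.η i', ∀ β ∈ St g A p P.η j', ∀ z ∈ P.Pc i j α' β',
        PO g P.δ (glue (j - P.m) (glue (P.t₄ j) (glue (P.t₁ i)
          (glue (-i + P.m) (fun n => o g z (n + 0)) (fun n => ζR (n + -(-i + P.m))))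
          (P.core i i' α β)) (fun n => ζA (n + -(P.t₄ j)))) (fun n => o g z (n + 0))) := by
  have hδ := P.δ_pos
  obtain ⟨b, hb, hdb⟩ := P.TR zs hzs.1 (i - P.m) (by omega)
  obtain ⟨a, ha, hda⟩ := P.TA zs hzs.1 (j - P.m) (by omega)
  obtain ⟨ζR, r1, r2, r3, r4⟩ := P.connR b hb
  obtain ⟨ζA, a1, a2, a3, a4⟩ := P.connA a ha
  refine ⟨ζR, ζA, fun i' j' hij α hα β hβ z hz => ?_⟩
  have hνδ := P.νδ
  have hηδ := P.ηδ
  have hm := P.hm
  have hcp := P.c_pos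
  obtain ⟨p1, p2⟩ := P.pair i j hz hzs
  -- closeness at the ends
  have hJ0 : dist (o g z (-i + P.m)) b ≤ P.δ / 8 := by
    have h1 := P.seg z zs (-i) (-P.k₁) (fun n h1 h2 => by
      have := p2 (-n) (by omega) (by omega)
      rwa [neg_neg] at this) (-i + P.m) (by omega) (by omega)
    have h2 : P.c * (1 / 2 : ℝ) ^ (-i + P.m - -(i : ℤ)).toNat ≤ P.c * (1 / 2) ^ P.m :=
      half_pow_le hcp (by omega)
    have h3 : P.c * (1 / 2 : ℝ) ^ (-(P.k₁ : ℤ) - (-i + P.m)).toNat ≤ P.c * (1 / 2) ^ P.m :=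
      half_pow_le hcp (by omega)
    have h4 : -((i : ℤ) - P.m) = -i + P.m := by ring
    rw [h4] at hdb
    have := dist_triangle (o g z (-i + P.m)) (o g zs (-i + P.m)) b
    linarith
  have hJ5 : dist (o g z (j - P.m)) a ≤ P.δ / 8 := by
    have h1 := P.seg z zs P.k₁ j (fun n h1 h2 => p1 n h1 h2) (j - P.m) (by omega) (by omega)
    have h2 : P.c * (1 / 2 : ℝ) ^ ((j : ℤ) - P.m - P.k₁).toNat ≤ P.c * (1 / 2) ^ P.m :=
      half_pow_le hcp (by omega)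
    have h3 : P.c * (1 / 2 : ℝ) ^ ((j : ℤ) - (j - P.m)).toNat ≤ P.c * (1 / 2) ^ P.m :=
      half_pow_le hcp (by omega)
    have := dist_triangle (o g z (j - P.m)) (o g zs (j - P.m)) a
    linarith
  obtain ⟨hα1, hα2, hα3⟩ := hα
  obtain ⟨hβ1, hβ2, hβ3⟩ := hβ
  rw [o_symm] at hα2
  have hxr := P.xr P.k le_rfl
  have hxp := P.xp P.k le_rfl
  have hk := P.k_pos
  -- the middle part
  have hcore : PO g (P.δ / 4) (P.core i i' α β) := by
    have h1 := (PO.orb g le_rfl α (-(P.t₁ i + i'))).glue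
      (PO.orb g le_rfl x (-(P.t₁ i + i' + P.k))) (τ := P.t₁ i + i') (ν := P.δ / 8) (by
        simp only [add_neg_cancel, o_zero]
        have e1 : P.t₁ i + i' + -(P.t₁ i + i' + P.k) = -(P.k : ℤ) := by ring
        rw [e1]
        have := dist_triangle_right α (o g x (-(P.k : ℤ))) r
        linarith)
    have h2 := h1.glue ((PO.orb g le_rfl β (-(P.t₁ i + i' + 2 * P.k))).mono (by linarith))
      (τ := P.t₁ i + i' + 2 * P.k) (ν := P.δ / 8) (by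
        rw [glue_ge (by omega)]
        simp only [add_neg_cancel, o_zero]
        have e1 : P.t₁ i + i' + 2 * P.k + -(P.t₁ i + i' + P.k) = (P.k : ℤ) := by ring
        rw [e1]
        have := dist_triangle_right (o g x (P.k : ℤ)) β p
        linarith)
    exact h2.mono (by linarith)
  -- first part
  have hQ0 : PO g (P.δ / 4 + P.δ / 8)
      (glue (-i + P.m) (fun n => o g z (n + 0)) (fun n => ζR (n + -(-i + P.m)))) :=
    ((PO.orb g le_rfl z 0).mono (by linarith)).glue (r1.shift _) (by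
      simp only [add_zero, add_neg_cancel]
      rw [r2 0 le_rfl, o_zero]
      exact hJ0)
  have hQ1 := hQ0.glue (hcore.mono (by linarith)) (τ := P.t₁ i) (ν := P.δ / 8) (by
    rw [glue_ge (by unfold t₁; omega)]
    have e1 : P.t₁ i + -(-(i : ℤ) + P.m) = P.K := by unfold t₁; ring
    simp only [e1]
    rw [r3 _ le_rfl, sub_self, o_zero]
    unfold core
    rw [glue_lt (by omega)]
    rcases Nat.eq_zero_or_pos i' with h0 | h0
    · subst h0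
      rw [glue_ge (by omega)]
      have e2 : P.t₁ i + -(P.t₁ i + (0 : ℕ) + P.k) = -(P.k : ℤ) := by push_cast; ring
      rw [e2, dist_comm]
      linarith
    · rw [glue_lt (by omega)]
      have e2 : P.t₁ i + -(P.t₁ i + i') = -(i' : ℤ) := by ring
      rw [e2, dist_comm]
      linarith)
  have hQ4 := hQ1.glue ((a1.shift (-(P.t₄ j))).mono (by linarith)) (τ := P.t₄ j) (ν := P.δ / 8) (by
    rw [glue_ge (by unfold t₁ t₄; omega)]
    unfold core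
    rw [glue_ge (by unfold t₁ t₄; omega)]
    simp only [add_neg_cancel]
    rw [a2 0 le_rfl, o_zero]
    have e2 : P.t₄ j + -(P.t₁ i + i' + 2 * P.k) = (j' : ℤ) := by unfold t₁ t₄; omega
    rw [e2]
    linarith)
  have hQ5 := hQ4.glue ((PO.orb g le_rfl z 0).mono (by linarith)) (τ := j - P.m) (ν := P.δ / 8) (by
    rw [glue_ge (by unfold t₄; omega)]
    have e2 : (j : ℤ) - P.m + -(P.t₄ j) = P.K := by unfold t₄; ring
    simp only [e2, add_zero]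
    rw [a3 _ le_rfl, sub_self, o_zero, dist_comm]
    exact hJ5)
  exact hQ5.mono (by linarith)

end Par

end Pool.Agent.W5h42.GS
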