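import Pool.Agent.W5h42.GS.Orb
import Pool.Agent.W5h70.AJ.Low

set_option autoImplicit false

open Filter Topology Set Metric

namespace Pool.Agent.W5h42.GS

open Pool.Agent.H721R2 Pool.Agent.H789R2.AN Pool.Agent.W5h70.AJ

variable {X : Type*} [MetricSpace X]

/-- Separated sets for the window `[0, n]`. -/
def Sepd (g : X ≃ₜ X) (ρ : ℝ) (n : ℕ) (F : Finset X) : Prop :=
  ∀ v ∈ F, ∀ v' ∈ F, v ≠ v' → ∃ k : ℤ, 0 ≤ k ∧ k ≤ n ∧ ρ < dist (o g v k) (o g v' k)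

theorem exists_index_bound [CompactSpace X] (ρ : ℝ) (hρ : 0 < ρ) : ∃ N₁ : ℕ, 1 ≤ N₁ ∧
    ∀ (g : X ≃ₜ X) (n : ℕ) (F : Finset X), Sepd g ρ n F → F.card ≤ N₁ ^ (n + 1) := by
  classical
  obtain ⟨t, idx, h1, h2⟩ := exists_index (X := X) ρ hρ
  refine ⟨t.card + 1, by omega, fun g n F hF => ?_⟩
  let itin : X → (Fin (n + 1) → t) := fun v k => ⟨idx (o g v (k : ℕ)), h1 _⟩
  have hinj : Set.InjOn itin F := by
    intro v hv v' hv' hvv
    by_contra hne
    obtain ⟨k, hk0, hkn, hk⟩ := hF v hv v' hv' hne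
    have h3 := congrFun hvv ⟨k.toNat, by omega⟩
    have h4 : idx (o g v k) = idx (o g v' k) := by
      have h5 := congrArg Subtype.val h3
      have h6 : ((k.toNat : ℕ) : ℤ) = k := by omega
      simp only [itin] at h5
      rwa [h6] at h5
    exact absurd (h2 _ _ h4) (not_lt.mpr hk.le)
  have h5 : F.card ≤ (Finset.univ : Finset (Fin (n + 1) → t)).card :=
    Finset.card_le_card_of_injOn itin (fun v _ => Finset.mem_univ _) hinj
  rw [Finset.card_univ, Fintype.card_fun, Fintype.card_fin, Fintype.card_coe] at h5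
  exact h5.trans (Nat.pow_le_pow_left (Nat.le_succ _) _)

/-- Maximal separated subsets. -/
theorem exists_sepd [CompactSpace X] (g : X ≃ₜ X) (ρ : ℝ) (hρ : 0 < ρ) (n : ℕ) (Y : Set X) :
    ∃ F : Finset X, (↑F ⊆ Y) ∧ Sepd g ρ n F ∧
      ∀ v ∈ Y, ∃ v' ∈ F, ∀ k : ℤ, 0 ≤ k → k ≤ n → dist (o g v k) (o g v' k) ≤ ρ := by
  classical
  obtain ⟨N₁, -, hN₁⟩ := exists_index_bound (X := X) ρ hρ
  have hne : ∃ m : ℕ, ∃ F : Finset X, (↑F ⊆ Y) ∧ Sepd g ρ n F ∧ F.card = m :=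
    ⟨0, ∅, by simp, fun v hv => absurd hv (Finset.notMem_empty v), rfl⟩
  have hbd : ∀ m : ℕ, (∃ F : Finset X, (↑F ⊆ Y) ∧ Sepd g ρ n F ∧ F.card = m) →
      m ≤ N₁ ^ (n + 1) := by
    rintro m ⟨F, -, hF, rfl⟩
    exact hN₁ g n F hF
  obtain ⟨F, hFY, hF, hFc⟩ := Nat.findGreatest_spec (P := fun m => ∃ F : Finset X, (↑F ⊆ Y) ∧
    Sepd g ρ n F ∧ F.card = m) (Nat.zero_le (N₁ ^ (n + 1)))
    ⟨∅, by simp, fun v hv => absurd hv (Finset.notMem_empty v), rfl⟩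
  refine ⟨F, hFY, hF, fun v hv => ?_⟩
  by_contra hcon
  push Not at hcon
  have hvF : v ∉ F := by
    intro hvF
    obtain ⟨k, -, -, hk⟩ := hcon v hvF
    rw [dist_self] at hk
    linarith
  have h1 : Sepd g ρ n (insert v F) := by
    intro u hu u' hu' huu
    rw [Finset.mem_insert] at hu hu'
    rcases hu with rfl | hu <;> rcases hu' with rfl | hu'
    · exact absurd rfl huu
    · obtain ⟨k, h1, h2, h3⟩ := hcon u' hu'
      exact ⟨k, h1, h2, h3⟩
    · obtain ⟨k, h1, h2, h3⟩ := hcon u hu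
      exact ⟨k, h1, h2, by rwa [dist_comm]⟩
    · exact hF u hu u' hu' huu
  have h2 : ∃ F' : Finset X, (↑F' ⊆ Y) ∧ Sepd g ρ n F' ∧ F'.card = F.card + 1 := by
    refine ⟨insert v F, ?_, h1, Finset.card_insert_of_notMem hvF⟩
    rw [Finset.coe_insert]
    exact insert_subset hv hFY
  have h3 := Nat.le_findGreatest (P := fun m => ∃ F : Finset X, (↑F ⊆ Y) ∧
    Sepd g ρ n F ∧ F.card = m) (hbd _ h2) h2
  rw [← hFc] at h3
  omega

/-- Orbit sums over windows. -/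
noncomputable def W (g : X ≃ₜ X) (φ : X → ℝ) (x : X) (a b : ℤ) : ℝ :=
  ∑ n ∈ Finset.Ico a b, φ (o g x n)

theorem W_add (g : X ≃ₜ X) (φ : X → ℝ) (x : X) {a b c : ℤ} (hab : a ≤ b) (hbc : b ≤ c) :
    W g φ x a b + W g φ x b c = W g φ x a c := by
  unfold W
  rw [← Finset.sum_union]
  · rw [Finset.Ico_union_Ico_eq_Ico hab hbc]
  · exact Finset.Ico_disjoint_Ico_consecutive a b c

theorem W_shift (g : X ≃ₜ X) (φ : X → ℝ) (x : X) (s a b : ℤ) :
    W g φ (o g x s) a b = W g φ x (a + s) (b + s) := by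
  unfold W
  rw [← Finset.map_add_right_Ico, Finset.sum_map]
  refine Finset.sum_congr rfl fun n _ => ?_
  rw [← o_add]
  congr 2
  simp only [addRightEmbedding_apply]
  ring

theorem W_self (g : X ≃ₜ X) (φ : X → ℝ) (x : X) (a : ℤ) : W g φ x a a = 0 := by simp [W]

theorem abs_W_le (g : X ≃ₜ X) (φ : X → ℝ) {B : ℝ} (hB : ∀ x, |φ x| ≤ B) (x : X) {a b : ℤ}
    (hab : a ≤ b) : |W g φ x a b| ≤ B * (b - a) := by
  unfold W
  refine (Finset.abs_sum_le_sum_abs _ _).trans ?_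
  calc ∑ n ∈ Finset.Ico a b, |φ (o g x n)| ≤ ∑ n ∈ Finset.Ico a b, B :=
        Finset.sum_le_sum fun n _ => hB _
    _ = B * (b - a) := by
        rw [Finset.sum_const, Int.card_Ico, nsmul_eq_mul, mul_comm]
        have : (((b - a).toNat : ℕ) : ℝ) = ((b - a : ℤ) : ℝ) := by
          rw [← Int.cast_natCast, Int.toNat_of_nonneg (by omega)]
        rw [this]
        push_cast
        ring

theorem W_nat (g : X ≃ₜ X) (φ : X → ℝ) (x : X) (n : ℕ) : W g φ x 0 n = bs g φ n x := by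
  induction n with
  | zero => simp [W, bs]
  | succ n ih =>
    have h1 := W_add g φ x (a := 0) (b := n) (c := (n + 1 : ℕ)) (by omega) (by omega)
    rw [← h1, ih]
    have h2 : Finset.Ico (n : ℤ) ((n + 1 : ℕ) : ℤ) = {(n : ℤ)} := by
      ext m
      simp only [Finset.mem_Ico, Finset.mem_singleton]
      push_cast
      omega
    unfold W bs
    rw [h2, Finset.sum_singleton, Finset.sum_range_succ, o_nat]

/-- Bowen's property. -/
def Bow (g : X ≃ₜ X) (φ : X → ℝ) (δ D : ℝ) : Prop := ∀ (x y : X) (n : ℕ),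
  (∀ k < n, dist (g^[k] x) (g^[k] y) ≤ δ) → |bs g φ n x - bs g φ n y| ≤ D

theorem Bow.W {g : X ≃ₜ X} {φ : X → ℝ} {δ D : ℝ} (h : Bow g φ δ D) {x y : X} {a b : ℤ}
    (hab : a ≤ b) (hd : ∀ n, a ≤ n → n < b → dist (o g x n) (o g y n) ≤ δ) :
    |W g φ x a b - W g φ y a b| ≤ D := by
  have h1 := h (o g x a) (o g y a) (b - a).toNat (fun k hk => by
    rw [← o_nat, ← o_nat, ← o_add, ← o_add]
    exact hd _ (by omega) (by omega))
  rw [← W_nat, ← W_nat, W_shift, W_shift, zero_add] at h1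
  have h2 : (((b - a).toNat : ℕ) : ℤ) + a = b := by omega
  rwa [h2] at h1

end Pool.Agent.W5h42.GS
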