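import Pool.Agent.W5h42.GS.StrA
import Pool.Agent.W5h42.GS.Sep

set_option autoImplicit false

open Filter Topology Set Metric

namespace Pool.Agent.W5h42.GS

open Pool.Agent.H721R2 Pool.Agent.H789R2.AN Pool.Agent.W5h70.AJ

variable {X : Type*} [MetricSpace X]

/-- Strings: orbit segments near `A` which start and end near `p`. -/
def St (g : X ≃ₜ X) (A : Set X) (p : X) (η : ℝ) (n : ℕ) : Set X :=
  {v | dist v p ≤ η ∧ dist (o g v n) p ≤ η ∧ ∀ k : ℤ, 0 ≤ k → k ≤ n → ∃ a ∈ A, dist (o g v k) a ≤ η}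

theorem p_mem_St {g : X ≃ₜ X} {A : Set X} {p : X} {η : ℝ} (hp : p ∈ A) (hgp : g p = p)
    (hη : 0 ≤ η) (n : ℕ) : p ∈ St g A p η n := by
  refine ⟨by rwa [dist_self], ?_, fun k _ _ => ⟨p, hp, ?_⟩⟩
  · rwa [o_fixed hgp, dist_self]
  · rwa [o_fixed hgp, dist_self]

/-- Orbit segments near the attractor can be completed to strings. -/
theorem cover [CompactSpace X] {g : X ≃ₜ X} {c : ℝ} (h : Sys g c) {A : Set X}
    (hA : MinAtt g A) {p : X} (hp : p ∈ A) (hgp : g p = p) {η : ℝ} (hη : 0 < η) :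
    ∃ ν > 0, ∃ K₀ : ℕ, ∀ K ≥ K₀, ∀ (k₁ j : ℤ) (_ : k₁ ≤ j) (z : X),
      (∀ n, k₁ ≤ n → n ≤ j → ∃ a ∈ A, dist (o g z n) a ≤ ν) →
      ∃ v ∈ St g A p η (2 * K + (j - k₁).toNat), ∀ n, k₁ ≤ n → n ≤ j →
        dist (o g z n) (o g v (n - k₁ + K)) ≤ η := by
  obtain ⟨δ, hδ, hsh⟩ := h.sh (η / 2) (half_pos hη)
  obtain ⟨K₀, hK₀⟩ := conn_uniform h.lp hA hp hgp (half_pos hδ)
  set ν := min (δ / 4) (η / 2) with hν
  have hν0 : 0 < ν := lt_min (by linarith) (by linarith)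
  have hν1 : ν ≤ δ / 4 := min_le_left _ _
  have hν2 : ν ≤ η / 2 := min_le_right _ _
  refine ⟨ν, hν0, K₀ + 1, fun K hK k₁ j hkj z hz => ?_⟩
  obtain ⟨a₁, ha₁, hd₁⟩ := hz k₁ le_rfl hkj
  obtain ⟨a₂, ha₂, hd₂⟩ := hz j hkj le_rfl
  obtain ⟨⟨ζ, b1, b2, b3, b4⟩, -⟩ := hK₀ K (by omega) a₁ ha₁
  obtain ⟨-, ⟨ζ', c1, c2, c3, c4⟩⟩ := hK₀ K (by omega) a₂ ha₂
  set τ : ℤ := K + (j - k₁) with hτ
  set ξ : ℤ → X := glue τ (glue K ζ (fun n => o g z (n + (k₁ - K)))) (fun n => ζ' (n + (-τ))) with hξ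
  have hPO : PO g δ ξ := by
    have h1 := b1.glue ((PO.orb g le_rfl z (k₁ - K)).mono (half_pos hδ).le) (τ := K) (ν := ν) (by
      rw [b3 _ le_rfl, sub_self, o_zero]
      have : (K : ℤ) + (k₁ - K) = k₁ := by ring
      rw [this, dist_comm]
      exact hd₁)
    have h2 := h1.glue ((c1.shift (-τ)).mono (by linarith)) (τ := τ) (ν := ν) (by
      rw [glue_ge (by omega)]
      simp only [add_neg_cancel]
      rw [c2 0 le_rfl, o_zero]
      have : τ + (k₁ - K) = j := by omega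
      rw [this]
      exact hd₂)
    exact h2.mono (by linarith)
  obtain ⟨v, hv⟩ := hsh ξ hPO
  have hn : ((2 * K + (j - k₁).toNat : ℕ) : ℤ) = 2 * K + (j - k₁) := by push_cast; omega
  refine ⟨v, ⟨?_, ?_, ?_⟩, ?_⟩
  · have := hv 0
    rw [o_zero, hξ, glue_lt (by omega), glue_lt (by omega), b2 0 le_rfl, o_zero] at this
    linarith
  · rw [hn]
    have := hv (2 * K + (j - k₁))
    rw [hξ, glue_ge (by omega)] at this
    have h3 : 2 * (K : ℤ) + (j - k₁) + (-τ) = K := by omega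
    simp only [h3] at this
    rw [c3 _ le_rfl, sub_self, o_zero] at this
    linarith
  · intro k hk0 hkn
    rw [hn] at hkn
    have h4 := hv k
    rcases lt_or_ge k K with hkK | hkK
    · rw [hξ, glue_lt (by omega), glue_lt hkK] at h4
      exact ⟨_, b4 k, by linarith⟩
    · rcases lt_or_ge k τ with hkτ | hkτ
      · rw [hξ, glue_lt hkτ, glue_ge hkK] at h4
        obtain ⟨a, ha, hd⟩ := hz (k + (k₁ - K)) (by omega) (by omega)
        refine ⟨a, ha, ?_⟩
        have := dist_triangle (o g v k) (o g z (k + (k₁ - K))) a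
        linarith
      · rw [hξ, glue_ge hkτ] at h4
        exact ⟨_, c4 _, by linarith⟩
  · intro n hn1 hn2
    have h4 := hv (n - k₁ + K)
    rcases hn2.lt_or_eq with h5 | h5
    · rw [hξ, glue_lt (by omega), glue_ge (by omega)] at h4
      have h6 : n - k₁ + K + (k₁ - K) = n := by ring
      rw [h6, dist_comm] at h4
      linarith
    · rw [hξ, glue_ge (by omega)] at h4
      have h6 : n - k₁ + K + (-τ) = 0 := by omega
      simp only [h6] at h4
      rw [c2 0 le_rfl, o_zero] at h4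
      have h7 := dist_triangle (o g z n) a₂ (o g v (n - k₁ + K))
      rw [dist_comm a₂, h5] at h7
      rw [h5]
      rw [h5] at h4
      linarith

end Pool.Agent.W5h42.GS
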