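import Mathlib

set_option autoImplicit false

open scoped Topology
open Set Filter MeasureTheory

namespace Pool.Agent.W5h42.GS

variable {M : Type*} [TopologicalSpace M]

/-- Bowen's regularity condition on a potential `φ`: the orbit sums of `φ` along two orbit segments
of the same length, which stay close in all steps, differ by at most a constant. -/
def BowenProperty (f : M → M) (φ : M → ℝ) : Prop :=
  ∃ 𝒰 ∈ 𝓝ˢ (diagonal M), ∃ D : ℝ, ∀ (n : ℕ) (x y : M),
    (∀ k < n, (f^[k] x, f^[k] y) ∈ 𝒰) →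
      |∑ k ∈ Finset.range n, φ (f^[k] x) - ∑ k ∈ Finset.range n, φ (f^[k] y)| ≤ D

/-- `χ` is a conjugating map of `f` on the open set `O`, in the sense of Capocaccia: it is continuous
and injective on `O`, and the orbits of `z` and of `χ z` approach each other in the past and in
the future, uniformly for `z ∈ O`. -/
structure IsConjugating (f : M ≃ₜ M) (O : Set M) (χ : M → M) : Prop where
  isOpen : IsOpen O
  continuousOn : ContinuousOn χ O
  injOn : InjOn χ O
  asymptotic : ∀ 𝒰 ∈ 𝓝ˢ (diagonal M), ∃ N : ℕ, ∀ n ≥ N, ∀ z ∈ O,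
    (f^[n] z, f^[n] (χ z)) ∈ 𝒰 ∧ (f.symm^[n] z, f.symm^[n] (χ z)) ∈ 𝒰

/-- One half of the condition of Capocaccia on the Gibbs states of `f` for the potential `φ`, up to
the constant `C`: a conjugating map `χ` does not diminish the measure more than by the factor
`exp (∑ n ∈ ℤ, (φ (fⁿ (χ z)) - φ (fⁿ z))) / C`.  The Gibbs states for `φ` satisfy it with `C = 1`. -/
def IsGibbs [MeasurableSpace M] (f : M ≃ₜ M) (φ : M → ℝ) (C : ℝ) (μ : Measure M) : Prop :=
  ∀ (O : Set M) (χ : M → M) (s : ℝ), IsConjugating f O χ →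
    (∀ z ∈ O, ∃ N₀ : ℕ, ∀ N ≥ N₀, s ≤ ∑ n ∈ Finset.range N,
      ((φ (f^[n] (χ z)) - φ (f^[n] z)) + (φ (f.symm^[n + 1] (χ z)) - φ (f.symm^[n + 1] z)))) →
    Real.exp s * μ.real O ≤ C * μ.real (χ '' O)

end Pool.Agent.W5h42.GS
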