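import Pool.Agent.W5h42.GS.Core

set_option autoImplicit false

open Filter Topology Set Metric MeasureTheory

namespace Pool.Agent.W5h42.GS

open Pool.Agent.H721R2 Pool.Agent.H789R2.AN Pool.Agent.W5h70.AJ

variable {X : Type*} [MetricSpace X]

/-- The one-sided Gibbs inequality, in terms of a metric. -/
def GibbsD [MeasurableSpace X] (g : X ≃ₜ X) (φ : X → ℝ) (C : ℝ) (μ : Measure X) : Prop :=
  ∀ (O : Set X) (χ : X → X) (s : ℝ), IsOpen O → ContinuousOn χ O → InjOn χ O →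
    (∀ τ > 0, ∃ N : ℕ, ∀ n : ℕ, N ≤ n → ∀ z ∈ O, dist (o g z n) (o g (χ z) n) < τ ∧
      dist (o g z (-n)) (o g (χ z) (-n)) < τ) →
    (∀ z ∈ O, ∃ N₀ : ℕ, ∀ N : ℕ, N₀ ≤ N → s ≤ W g φ (χ z) (-N) N - W g φ z (-N) N) →
    Real.exp s * μ.real O ≤ C * μ.real (χ '' O)

theorem close_iter [CompactSpace X] (g : X ≃ₜ X) (N : ℕ) {e : ℝ} (he : 0 < e) :
    ∃ δ > 0, ∀ x y, dist x y < δ → ∀ n : ℤ, -N ≤ n → n ≤ N → dist (o g x n) (o g y n) < e := by
  obtain ⟨δ₁, hδ₁, h1⟩ := unif_iter g (N + 1) he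
  obtain ⟨δ₂, hδ₂, h2⟩ := unif_iter g.symm (N + 1) he
  refine ⟨min δ₁ δ₂, lt_min hδ₁ hδ₂, fun x y hxy n hn hn' => ?_⟩
  rcases le_or_gt 0 n with h3 | h3
  · have := h1 x y (hxy.trans_le (min_le_left _ _)) n.toNat (by omega)
    rw [← o_nat, ← o_nat] at this
    have e1 : (n.toNat : ℤ) = n := by omega
    rwa [e1] at this
  · have := h2 x y (hxy.trans_le (min_le_right _ _)) (-n).toNat (by omega)
    rw [← o_nat, ← o_nat, o_symm, o_symm] at this
    have e1 : -((-n).toNat : ℤ) = n := by omega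
    rwa [e1] at this

namespace Par

variable {g : X ≃ₜ X} {A R : Set X} {p r x : X} {φ : X → ℝ} (P : Par g A R p r x φ)

/-- Total loss. -/
def Dt : ℝ := 6 * P.D + P.B * (2 * P.K + 2 * P.k) + 2 * P.B * (2 * P.K + P.m) + 2 * P.B * P.k₁

set_option maxHeartbeats 2000000 in
theorem main_est [CompactSpace X] [MeasurableSpace X] [BorelSpace X] (μ : Measure X)
    [IsFiniteMeasure μ] {C : ℝ} (hC : 0 ≤ C) (hG : GibbsD g φ C μ) (i j : ℕ)
    (hi : 2 * P.m + P.k₁ ≤ i) (hj : 2 * P.m + P.k₁ ≤ j) {α' β' zs : X}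
    (hzs : zs ∈ P.Pc i j α' β') (i' j' : ℕ)
    (hij : i' + j' + (2 * P.m + 2 * P.K + 2 * P.k) = i + j) {α β : X}
    (hα : α ∈ St g.symm R r P.η i') (hβ : β ∈ St g A p P.η j') :
    Real.exp (W g φ α (-i') 0 + W g φ β 0 j' - W g φ α' (-(i + 2 * P.K - P.k₁)) 0 -
      W g φ β' 0 (j + 2 * P.K - P.k₁) - P.Dt) * μ.real (P.Pc i j α' β') ≤
      C * μ.real (P.Cyl i j i' α β) := by
  obtain ⟨ζR, ζA, hPO⟩ := P.exists_xi i j hi hj hzs
  have hε := P.ε_pos
  have hρ := P.ρ_pos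
  have hρc := P.ρc
  have hερ := P.ερ
  have hcp := P.c_pos
  have hk := P.k_pos
  set t₀ : ℤ := -i + P.m with ht₀
  set t₅ : ℤ := j - P.m with ht₅
  have ht₁ : P.t₁ i = t₀ + P.K := by unfold t₁; omega
  have ht₄ : P.t₄ j = t₅ - P.K := by unfold t₄; omega
  have ht₄' : P.t₄ j = P.t₁ i + i' + 2 * P.k + j' := by unfold t₁ t₄; omega
  -- the shadowing points
  have hsh : ∀ z ∈ P.Pc i j α' β', ∃ y, ∀ n, dist (o g y n) ((glue t₅ (glue (P.t₄ j)
      (glue (P.t₁ i) (glue t₀ (fun n => o g z (n + 0)) (fun n => ζR (n + -t₀)))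
      (P.core i i' α β)) (fun n => ζA (n + -(P.t₄ j)))) (fun n => o g z (n + 0))) n) ≤ P.ε :=
    fun z hz => P.sh _ (hPO i' j' hij α hα β hβ z hz)
  choose! χ hχ using hsh
  -- consequences
  have hχf : ∀ z ∈ P.Pc i j α' β', ∀ n, t₅ ≤ n → dist (o g (χ z) n) (o g z n) ≤ P.ε := by
    intro z hz n hn
    have := hχ z hz n
    rwa [glue_ge hn, add_zero] at this
  have hχb : ∀ z ∈ P.Pc i j α' β', ∀ n, n < t₀ → dist (o g (χ z) n) (o g z n) ≤ P.ε := by
    intro z hz n hn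
    have := hχ z hz n
    rwa [glue_lt (by omega), glue_lt (by omega), glue_lt (by omega), glue_lt hn, add_zero] at this
  have hχm : ∀ z ∈ P.Pc i j α' β', ∀ n, P.t₁ i ≤ n → n < P.t₄ j →
      dist (o g (χ z) n) (P.core i i' α β n) ≤ P.ε := by
    intro z hz n hn hn'
    have := hχ z hz n
    rwa [glue_lt (by omega), glue_lt (by omega), glue_ge hn] at this
  -- continuity
  have hcont : ContinuousOn χ (P.Pc i j α' β') := by
    rw [Metric.continuousOn_iff]
    intro z hz τ hτ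
    obtain ⟨N, hN⟩ := ((tendsto_order.mp (tendsto_half (2 * P.c))).2 τ hτ).exists
    obtain ⟨δ₁, hδ₁, hcl⟩ := close_iter g N hε
    refine ⟨δ₁, hδ₁, fun z' hz' hd => ?_⟩
    have h1 : ∀ n : ℤ, -N ≤ n → n ≤ N → dist (o g (χ z') n) (o g (χ z) n) ≤ 4 * P.ρ := by
      intro n hn hn'
      have h2 := hχ z hz n
      have h3 := hχ z' hz' n
      have h4 : dist ((glue t₅ (glue (P.t₄ j)
          (glue (P.t₁ i) (glue t₀ (fun n => o g z' (n + 0)) (fun n => ζR (n + -t₀)))
          (P.core i i' α β)) (fun n => ζA (n + -(P.t₄ j)))) (fun n => o g z' (n + 0))) n)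
          ((glue t₅ (glue (P.t₄ j)
          (glue (P.t₁ i) (glue t₀ (fun n => o g z (n + 0)) (fun n => ζR (n + -t₀)))
          (P.core i i' α β)) (fun n => ζA (n + -(P.t₄ j)))) (fun n => o g z (n + 0))) n) ≤
          P.ε := by
        have h5 := (hcl z' z hd n hn hn').le
        unfold glue
        split_ifs
        · simpa using h5
        · simpa using hε.le
        · simpa using hε.le
        · simpa using hε.le
        · simpa using h5
      rw [dist_comm] at h2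
      have h6 := (dist_triangle4 (o g (χ z') n) _ _ (o g (χ z) n)).trans
        (add_le_add (add_le_add h3 h4) h2)
      linarith
    have h7 := P.seg (χ z') (χ z) (-N) N h1 0 (by omega) (by omega)
    rw [o_zero, o_zero] at h7
    have e1 : ((0 : ℤ) - -(N : ℤ)).toNat = N := by omega
    have e2 : ((N : ℤ) - 0).toNat = N := by omega
    rw [e1, e2] at h7
    linarith
  -- injectivity
  have hinj : InjOn χ (P.Pc i j α' β') := by
    intro z hz z' hz' hzz
    apply P.sys.exp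
    obtain ⟨p1, p2⟩ := P.pair i j hz hz'
    intro n
    rcases le_or_gt t₅ n with h1 | h1
    · have h2 := hχf z hz n h1
      have h3 := hχf z' hz' n h1
      rw [hzz] at h2
      have := dist_triangle_left (o g z n) (o g z' n) (o g (χ z') n)
      linarith
    · rcases lt_or_ge n t₀ with h2 | h2
      · have h3 := hχb z hz n h2
        have h4 := hχb z' hz' n h2
        rw [hzz] at h3
        have := dist_triangle_left (o g z n) (o g z' n) (o g (χ z') n)
        linarith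
      · rcases le_or_gt (P.k₁ : ℤ) n with h3 | h3
        · have := p1 n h3 (by omega)
          linarith
        · rcases le_or_gt n (-(P.k₁ : ℤ)) with h4 | h4
          · have := p2 (-n) (by omega) (by omega)
            rw [neg_neg] at this
            linarith
          · exact P.Tc z hz.1 z' hz'.1 n (by omega) (by omega)
  -- asymptotics
  have hasy : ∀ τ > 0, ∃ N : ℕ, ∀ n : ℕ, N ≤ n → ∀ z ∈ P.Pc i j α' β',
      dist (o g z n) (o g (χ z) n) < τ ∧ dist (o g z (-n)) (o g (χ z) (-n)) < τ := by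
    intro τ hτ
    obtain ⟨N, hN⟩ := eventually_atTop.mp ((tendsto_order.mp (tendsto_half P.c)).2 τ hτ)
    refine ⟨N + i + j + 1, fun n hn z hz => ⟨?_, ?_⟩⟩
    · have h1 := P.sys.fwd (x := z) (y := χ z) (a := t₅) (fun n hn => by
        rw [dist_comm]; linarith [hχf z hz n hn]) n (by omega)
      exact lt_of_le_of_lt h1 (hN _ (by omega))
    · have h1 := P.sys.bwd (x := z) (y := χ z) (a := t₀ - 1) (fun n hn => by
        rw [dist_comm]; linarith [hχb z hz n (by omega)]) (-n) (by omega)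
      exact lt_of_le_of_lt h1 (hN _ (by omega))
  have hB0 : 0 ≤ P.B := (abs_nonneg _).trans (P.φB x)
  have hlow : ∀ (y : X) (a b : ℤ), a ≤ b → -(P.B * (b - a)) ≤ W g φ y a b := fun y a b hab =>
    (abs_le.mp (abs_W_le g φ P.φB y hab)).1
  have hup : ∀ (y : X) (a b : ℤ), a ≤ b → W g φ y a b ≤ P.B * (b - a) := fun y a b hab =>
    (abs_le.mp (abs_W_le g φ P.φB y hab)).2
  -- sums
  have hsum : ∀ z ∈ P.Pc i j α' β', ∃ N₀ : ℕ, ∀ N : ℕ, N₀ ≤ N →
      W g φ α (-i') 0 + W g φ β 0 j' - W g φ α' (-(i + 2 * P.K - P.k₁)) 0 -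
      W g φ β' 0 (j + 2 * P.K - P.k₁) - P.Dt ≤ W g φ (χ z) (-N) N - W g φ z (-N) N := by
    intro z hz
    refine ⟨i + j, fun N hN => ?_⟩
    have f1 := W_add g φ (χ z) (a := -N) (b := t₀) (c := N) (by omega) (by omega)
    have f2 := W_add g φ (χ z) (a := t₀) (b := t₅) (c := N) (by omega) (by omega)
    have f3 := W_add g φ z (a := -N) (b := t₀) (c := N) (by omega) (by omega)
    have f4 := W_add g φ z (a := t₀) (b := t₅) (c := N) (by omega) (by omega)
    have d1 := abs_le.mp (P.bow.W (x := χ z) (y := z) (a := -N) (b := t₀) (by omega)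
      (fun n h1 h2 => by linarith [hχb z hz n h2]))
    have d2 := abs_le.mp (P.bow.W (x := χ z) (y := z) (a := t₅) (b := N) (by omega)
      (fun n h1 h2 => by linarith [hχf z hz n h1]))
    -- the middle of the new orbit
    have m1 := W_add g φ (χ z) (a := t₀) (b := P.t₁ i) (c := t₅) (by omega) (by omega)
    have m2 := W_add g φ (χ z) (a := P.t₁ i) (b := P.t₁ i + i') (c := t₅) (by omega) (by omega)
    have m3 := W_add g φ (χ z) (a := P.t₁ i + i') (b := P.t₁ i + i' + 2 * P.k) (c := t₅)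
      (by omega) (by omega)
    have m4 := W_add g φ (χ z) (a := P.t₁ i + i' + 2 * P.k) (b := P.t₄ j) (c := t₅)
      (by omega) (by omega)
    have n1 := hlow (χ z) t₀ (P.t₁ i) (by omega)
    have n2 := hlow (χ z) (P.t₁ i + i') (P.t₁ i + i' + 2 * P.k) (by omega)
    have n3 := hlow (χ z) (P.t₄ j) t₅ (by omega)
    have e1 : ((P.t₁ i : ℤ) : ℝ) - (t₀ : ℝ) = P.K := by rw [ht₁]; push_cast; ring
    have e2 : ((P.t₁ i + i' + 2 * P.k : ℤ) : ℝ) - ((P.t₁ i + i' : ℤ) : ℝ) = 2 * P.k := by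
      push_cast; ring
    have e3 : ((t₅ : ℤ) : ℝ) - ((P.t₄ j : ℤ) : ℝ) = P.K := by rw [ht₄]; push_cast; ring
    rw [e1] at n1
    rw [e2] at n2
    rw [e3] at n3
    have w1 := abs_le.mp (P.bow.W (x := χ z) (y := o g α (-(P.t₁ i + i'))) (a := P.t₁ i)
      (b := P.t₁ i + i') (by omega) (fun n h1 h2 => by
        have h3 := hχm z hz n h1 (by omega)
        unfold core at h3
        rw [glue_lt (by omega), glue_lt h2] at h3
        rw [← o_add, add_comm]
        linarith))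
    rw [W_shift] at w1
    have e4 : P.t₁ i + -(P.t₁ i + i') = -(i' : ℤ) := by ring
    have e5 : P.t₁ i + i' + -(P.t₁ i + i') = 0 := by ring
    rw [e4, e5] at w1
    have w2 := abs_le.mp (P.bow.W (x := χ z) (y := o g β (-(P.t₁ i + i' + 2 * P.k)))
      (a := P.t₁ i + i' + 2 * P.k) (b := P.t₄ j) (by omega) (fun n h1 h2 => by
        have h3 := hχm z hz n (by omega) h2
        unfold core at h3
        rw [glue_ge h1] at h3
        rw [← o_add, add_comm]
        linarith))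
    rw [W_shift] at w2
    have e6 : P.t₁ i + i' + 2 * P.k + -(P.t₁ i + i' + 2 * P.k) = 0 := by ring
    have e7 : P.t₄ j + -(P.t₁ i + i' + 2 * P.k) = (j' : ℤ) := by omega
    rw [e6, e7] at w2
    -- the middle of the old orbit
    have q1 := W_add g φ z (a := t₀) (b := -P.k₁) (c := t₅) (by omega) (by omega)
    have q2 := W_add g φ z (a := -P.k₁) (b := P.k₁) (c := t₅) (by omega) (by omega)
    have q3 := hup z (-P.k₁) P.k₁ (by omega)
    have e8 : ((P.k₁ : ℤ) : ℝ) - ((-(P.k₁ : ℤ) : ℤ) : ℝ) = 2 * P.k₁ := by push_cast; ring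
    rw [e8] at q3
    have v1 := abs_le.mp (P.bow.W (x := z) (y := o g β' (P.K - P.k₁)) (a := P.k₁) (b := t₅)
      (by omega) (fun n h1 h2 => by
        have h3 := hz.2.1 n (Finset.mem_Icc.mpr ⟨h1, by omega⟩)
        rw [← o_add]
        have e9 : (P.K : ℤ) - P.k₁ + n = n - P.k₁ + P.K := by ring
        rw [e9]
        linarith))
    rw [W_shift] at v1
    have v2 := abs_le.mp (P.bow.W (x := z) (y := o g α' (P.k₁ - P.K)) (a := t₀) (b := -P.k₁)
      (by omega) (fun n h1 h2 => by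
        have h3 := hz.2.2 (-n) (Finset.mem_Icc.mpr ⟨by omega, by omega⟩)
        rw [neg_neg] at h3
        rw [← o_add]
        have e9 : (P.k₁ : ℤ) - P.K + n = -(-n - P.k₁ + P.K) := by ring
        rw [e9]
        linarith))
    rw [W_shift] at v2
    have u1 := W_add g φ β' (a := 0) (b := P.k₁ + (P.K - P.k₁)) (c := j + 2 * P.K - P.k₁)
      (by omega) (by omega)
    have u2 := W_add g φ β' (a := P.k₁ + (P.K - P.k₁)) (b := t₅ + (P.K - P.k₁))
      (c := j + 2 * P.K - P.k₁) (by omega) (by omega)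
    have u3 := hlow β' 0 (P.k₁ + (P.K - P.k₁)) (by omega)
    have u4 := hlow β' (t₅ + (P.K - P.k₁)) (j + 2 * P.K - P.k₁) (by omega)
    have e10 : ((P.k₁ + (P.K - P.k₁) : ℤ) : ℝ) - ((0 : ℤ) : ℝ) = P.K := by push_cast; ring
    have e11 : ((j + 2 * P.K - P.k₁ : ℤ) : ℝ) - ((t₅ + (P.K - P.k₁) : ℤ) : ℝ) =
      P.K + P.m := by rw [ht₅]; push_cast; ring
    rw [e10] at u3
    rw [e11] at u4
    have y1 := W_add g φ α' (a := -(i + 2 * P.K - P.k₁)) (b := t₀ + (P.k₁ - P.K)) (c := 0)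
      (by omega) (by omega)
    have y2 := W_add g φ α' (a := t₀ + (P.k₁ - P.K)) (b := -P.k₁ + (P.k₁ - P.K)) (c := 0)
      (by omega) (by omega)
    have y3 := hlow α' (-(i + 2 * P.K - P.k₁)) (t₀ + (P.k₁ - P.K)) (by omega)
    have y4 := hlow α' (-P.k₁ + (P.k₁ - P.K)) 0 (by omega)
    have e12 : ((t₀ + (P.k₁ - P.K) : ℤ) : ℝ) - ((-(i + 2 * P.K - P.k₁) : ℤ) : ℝ) =
      P.K + P.m := by rw [ht₀]; push_cast; ring
    have e13 : ((0 : ℤ) : ℝ) - ((-P.k₁ + (P.k₁ - P.K) : ℤ) : ℝ) = P.K := by push_cast; ring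
    rw [e12] at y3
    rw [e13] at y4
    have z1 := d1.1
    have z2 := d2.1
    have z3 := w1.1
    have z4 := w2.1
    have z5 := v1.2
    have z6 := v2.2
    clear d1 d2 w1 w2 v1 v2
    have G1 : W g φ (χ z) (-N) N - W g φ z (-N) N ≥ W g φ (χ z) t₀ t₅ - W g φ z t₀ t₅ - 2 * P.D := by
      linarith
    have G2 : W g φ (χ z) t₀ t₅ ≥ W g φ α (-i') 0 + W g φ β 0 j' - 2 * P.D -
        P.B * (2 * P.K + 2 * P.k) := by
      linarith
    have G3 : W g φ z t₀ t₅ ≤ W g φ α' (-(i + 2 * P.K - P.k₁)) 0 +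
        W g φ β' 0 (j + 2 * P.K - P.k₁) + 2 * P.D + 2 * P.B * (2 * P.K + P.m) +
        2 * P.B * P.k₁ := by
      linarith
    unfold Dt
    linarith
  have h := hG (P.Pc i j α' β') χ _ (P.isOpen_Pc i j α' β') hcont hinj hasy hsum
  refine h.trans (mul_le_mul_of_nonneg_left ?_ hC)
  refine measureReal_mono ?_
  rintro _ ⟨z, hz, rfl⟩
  intro n hn
  rw [Finset.mem_Ico] at hn
  exact hχm z hz n hn.1 hn.2

end Par

end Pool.Agent.W5h42.GS
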