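import Pool.Agent.W5h42.GS.StrA

set_option autoImplicit false

open Filter Topology Set Metric

namespace Pool.Agent.W5h42.GS

open Pool.Agent.H721R2 Pool.Agent.H789R2.AN Pool.Agent.W5h70.AJ

variable {X : Type*} [MetricSpace X]

theorem bas_inv [CompactSpace X] {g : X ≃ₜ X} {A : Set X} (hA : ∀ x, g x ∈ A ↔ x ∈ A) (x : X) :
    g x ∈ Bas g A ↔ x ∈ Bas g A := bas_map (φ := g) (fun _ => rfl) hA x

/-- The basins of the minimal attractors are dense. -/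
theorem dense_bas [CompactSpace X] {g : X ≃ₜ X} {c : ℝ} (h : LP g c) (x : X) {η' : ℝ}
    (hη' : 0 < η') : ∃ A, MinAtt g A ∧ ∃ y ∈ Bas g A, dist x y < η' := by
  -- the omega-limit set
  set ω : Set X := {y | MapClusterPt y atTop (fun n : ℕ => g^[n] x)} with hω
  have hωne : ω.Nonempty := by
    obtain ⟨y, hy⟩ := exists_clusterPt_of_compactSpace (map (fun n : ℕ => g^[n] x) atTop)
    exact ⟨y, hy⟩
  have hωchar : ∀ y, y ∈ ω ↔ ∀ W ∈ 𝓝 y, ∀ N : ℕ, ∃ n ≥ N, g^[n] x ∈ W := by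
    intro y
    rw [hω, mem_ofPred_eq, mapClusterPt_iff_frequently]
    exact forall₂_congr fun W _ => frequently_atTop
  have hωinv : ∀ y, g y ∈ ω ↔ y ∈ ω := by
    intro y
    rw [hωchar, hωchar]
    constructor
    · intro hy W hW N
      have h1 : g.symm ⁻¹' W ∈ 𝓝 (g y) := by
        apply g.symm.continuous.continuousAt.preimage_mem_nhds
        rwa [g.symm_apply_apply]
      obtain ⟨n, hn, h2⟩ := hy _ h1 (N + 1)
      refine ⟨n - 1, by omega, ?_⟩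
      have h3 : g^[n] x = g (g^[n - 1] x) := by
        rw [← Function.iterate_succ_apply' g (n - 1)]
        congr 1
        omega
      rw [mem_preimage, h3, g.symm_apply_apply] at h2
      exact h2
    · intro hy W hW N
      have h1 : g ⁻¹' W ∈ 𝓝 y := g.continuous.continuousAt.preimage_mem_nhds hW
      obtain ⟨n, hn, h2⟩ := hy _ h1 N
      refine ⟨n + 1, by omega, ?_⟩
      rw [Function.iterate_succ_apply']
      exact h2
  set S : Set X := {w | ∃ y ∈ ω, WS g.symm y w} with hS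
  have hSsat : ∀ w ∈ S, ∀ w', WS g.symm w w' → w' ∈ S := by
    rintro w ⟨y, hy, hyw⟩ w' hww'
    exact ⟨y, hy, hyw.trans hww'⟩
  have hSinv : ∀ w, g w ∈ S ↔ w ∈ S := by
    intro w
    constructor
    · rintro ⟨y, hy, hyw⟩
      refine ⟨g.symm y, (inv_symm hωinv y).mpr hy, ?_⟩
      have := hyw.mapIter (φ := g.symm) (fun _ => rfl) 1
      simpa using this
    · rintro ⟨y, hy, hyw⟩
      refine ⟨g y, (hωinv y).mpr hy, ?_⟩
      rw [← WS.iter 1]
      simpa using hyw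
  have hatt : IsAtt g (closure S) := by
    refine ⟨isClosed_closure, ?_, ?_, closure_sat h hSsat⟩
    · obtain ⟨y, hy⟩ := hωne
      exact ⟨y, subset_closure ⟨y, hy, WS.refl _ _⟩⟩
    · intro w
      have e1 : g ⁻¹' S = S := by
        ext w
        exact hSinv w
      have e2 := g.preimage_closure S
      rw [e1] at e2
      rw [← mem_preimage, e2]
  obtain ⟨A, hAS, hA⟩ := exists_minAtt hatt
  obtain ⟨v, hvA⟩ := hA.1.nonempty
  have hvS : v ∈ closure S := hAS hvA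
  obtain ⟨w, hwV, y, hy, hyw⟩ := mem_closure_iff.mp hvS _ (isOpen_bas h hA.1)
    (subset_bas _ _ hvA)
  obtain ⟨δ, hδ, hlp⟩ := h.lp c h.c_pos
  obtain ⟨m, hm⟩ := hyw.eventually_lt (half_pos hδ)
  have h1 := hm m le_rfl
  obtain ⟨N, hN⟩ := eventually_atTop.mp ((tendsto_order.mp (tendsto_half c)).2 η' hη')
  have h2 : {y' | dist (g.symm^[m] y') (g.symm^[m] y) < δ / 2} ∈ 𝓝 y := by
    have hcont : Continuous fun s => dist (g.symm^[m] s) (g.symm^[m] y) :=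
      (g.symm.continuous.iterate m).dist continuous_const
    exact (isOpen_lt hcont continuous_const).mem_nhds (by
      show dist (g.symm^[m] y) (g.symm^[m] y) < δ / 2
      rw [dist_self]; linarith)
  obtain ⟨n, hn, h3⟩ := (hωchar y).mp hy _ h2 (m + N)
  have e1 : g.symm^[m] (g^[n] x) = g^[n - m] x := by
    have : g^[n] x = g^[m] (g^[n - m] x) := by
      rw [← Function.iterate_add_apply]
      congr 1
      omega
    rw [this, iterL]
  have h3' : dist (g^[n - m] x) (g.symm^[m] y) < δ / 2 := by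
    rw [← e1]; exact h3
  have h4 : dist (g.symm^[m] w) (g^[n - m] x) < δ := by
    have := dist_triangle (g.symm^[m] w) (g.symm^[m] y) (g^[n - m] x)
    rw [dist_comm (g.symm^[m] w) (g.symm^[m] y), dist_comm (g.symm^[m] y) (g^[n - m] x)] at this
    linarith
  obtain ⟨z, hz1, hz2⟩ := hlp _ _ h4
  have hz2' := h.cU _ _ hz2 (n - m)
  rw [iterL] at hz2'
  refine ⟨A, hA, g.symm^[n - m] z, ?_, lt_of_le_of_lt hz2' (hN _ (by omega))⟩
  have hinv := bas_inv hA.1.inv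
  rw [← inv_iter hinv (n - m), iterR]
  have h5 : g.symm^[m] w ∈ Bas g A := by
    rw [← inv_iter hinv m, iterR]
    exact hwV
  obtain ⟨a, ha, hwa⟩ := h5
  exact ⟨a, ha, (WS.of_SR (h.cS _ _ hz1)).symm'.trans hwa⟩

/-- Points of heteroclinic type and common fixed points. -/
theorem structureB [CompactSpace X] {E : Type*} [NormedAddCommGroup E]
    [NormedSpace ℝ E] (f : X ≃ₜ X) (N₀ : ℕ) (hN₀ : 1 ≤ N₀)
    (hS : ∀ N ≥ N₀, ∃ S : HypSys X E, S.g = iterHomeo f N) {A R : Set X}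
    (hA : MinAtt (iterHomeo f N₀) A) (hR : MinAtt (iterHomeo f N₀).symm R)
    (hAR : Disjoint A R) {x' : X}
    (hx' : x' ∈ Bas (iterHomeo f N₀) A ∩ Bas (iterHomeo f N₀).symm R) :
    ∃ (N : ℕ) (c : ℝ) (A₀ R₀ : Set X) (p r x : X), 1 ≤ N ∧ Sys (iterHomeo f N) c ∧
      MinAtt (iterHomeo f N) A₀ ∧ MinAtt (iterHomeo f N).symm R₀ ∧ Disjoint A₀ R₀ ∧ p ∈ A₀ ∧
      r ∈ R₀ ∧ iterHomeo f N p = p ∧ iterHomeo f N r = r ∧ WS (iterHomeo f N).symm x r ∧
      WS (iterHomeo f N) x p ∧ x' ∈ Bas (iterHomeo f N) A₀ ∩ Bas (iterHomeo f N).symm R₀ := by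
  obtain ⟨S₀, hS₀⟩ := hS N₀ le_rfl
  set g := iterHomeo f N₀ with hg
  obtain ⟨⟨a, ha, hxa⟩, ⟨b, hb, hxb⟩⟩ := hx'
  obtain ⟨r₁, hr₁, Nr, hNr, hr₁p⟩ : ∃ p ∈ R, ∃ N : ℕ, 1 ≤ N ∧ g.symm^[N] p = p := by
    have h1 : MinAtt S₀.symm.g R := by
      show MinAtt S₀.g.symm R
      rw [hS₀]; exact hR
    obtain ⟨p, hp, N, hN, hpN⟩ := exists_periodic S₀.symm h1
    refine ⟨p, hp, N, hN, ?_⟩
    have : (S₀.symm.g : X → X) = g.symm := by
      show (S₀.g.symm : X → X) = g.symm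
      rw [hS₀]
    rwa [this] at hpN
  obtain ⟨p₁, hp₁, Np, hNp, hp₁p⟩ : ∃ p ∈ A, ∃ N : ℕ, 1 ≤ N ∧ g^[N] p = p := by
    have h1 : MinAtt S₀.g A := by rw [hS₀]; exact hA
    have := exists_periodic S₀ h1
    rwa [hS₀] at this
  -- the power
  set M := Np * Nr with hM
  have hM1 : 1 ≤ M := Nat.mul_pos hNp hNr
  have hGeq : iterHomeo f (N₀ * M) = iterHomeo g M := by
    ext x
    show f^[N₀ * M] x = (f^[N₀])^[M] x
    rw [Function.iterate_mul]
  obtain ⟨S, hSg⟩ := hS (N₀ * M) (Nat.le_mul_of_pos_right N₀ hM1)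
  obtain ⟨c, hc⟩ := exists_Sys S
  rw [hSg] at hc
  obtain ⟨A₀, hA₀A, hA₀, haA₀, hpA₀⟩ := min_power hA hM1 ha
  obtain ⟨R₀, hR₀R, hR₀, hbR₀, hrR₀⟩ := min_power hR hM1 hb
  obtain ⟨i', hi'⟩ := hpA₀ p₁ hp₁
  obtain ⟨j', hj'⟩ := hrR₀ r₁ hr₁
  have hfix : ∀ (g : X ≃ₜ X) (q : X) (L : ℕ), g^[L] q = q → L ∣ M →
      ∀ j, iterHomeo g M (g^[j] q) = g^[j] q := by
    rintro g q L hq ⟨L', hL'⟩ j
    show g^[M] (g^[j] q) = g^[j] q
    rw [← Function.iterate_add_apply, add_comm, Function.iterate_add_apply, hL',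
      Function.iterate_mul]
    congr 1
    exact Function.iterate_fixed hq L'
  rw [hGeq] at hc
  have hfixp := hfix g p₁ Np hp₁p (Dvd.intro _ rfl) i'
  have hfixr := hfix g.symm r₁ Nr hr₁p (Dvd.intro_left _ rfl) j'
  have hfixr' : iterHomeo g M (g.symm^[j'] r₁) = g.symm^[j'] r₁ := by
    have h1 : (iterHomeo g M).symm (g.symm^[j'] r₁) = g.symm^[j'] r₁ := hfixr
    rw [Homeomorph.symm_apply_eq] at h1
    exact h1.symm
  have hxa' : WS (iterHomeo g M) x' a := (ws_iter_iff g hM1 _ _).mpr hxa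
  have hxb' : WS (iterHomeo g M).symm x' b := (ws_iter_symm_iff g hM1 _ _).mpr hxb
  obtain ⟨y, hy1, hy2⟩ := heteroclinic hc hA₀ hi' hfixp (r := b) (y := x') (a := a) haA₀ hxb' hxa'
  have hR₀' : MinAtt (iterHomeo g M).symm R₀ := hR₀
  obtain ⟨x, hx1, hx2⟩ := heteroclinic hc.symm hR₀' hj' hfixr (r := g^[i'] p₁) (y := y) (a := b)
    hbR₀ (by rw [Homeomorph.symm_symm]; exact hy2) hy1
  rw [Homeomorph.symm_symm] at hx1
  refine ⟨N₀ * M, c, A₀, R₀, g^[i'] p₁, g.symm^[j'] r₁, x, Nat.mul_pos hN₀ hM1, ?_⟩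
  rw [hGeq]
  exact ⟨hc, hA₀, hR₀', hAR.mono hA₀A hR₀R, hi', hj', hfixp, hfixr', hx2, hx1,
    ⟨a, haA₀, hxa'⟩, ⟨b, hbR₀, hxb'⟩⟩

end Pool.Agent.W5h42.GS
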