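import Pool.Agent.W5h42.GS.Basin
import Pool.Agent.W5h42.GS.StrB
import Pool.Agent.W5h42.GS.Def
import Pool.Agent.W5h70.AJ.Main

set_option autoImplicit false
set_option linter.unusedSectionVars false

open scoped Manifold ContDiff Topology ENNReal
open Filter Set Metric MeasureTheory Module

namespace Pool.Agent.W5h42.GS

open Pool.Agent.H721R2 Pool.Agent.H789R2.AN Pool.Agent.W5h70.AJ

section metric

variable {X : Type*} [MetricSpace X]

theorem o_power (f : X ≃ₜ X) (N : ℕ) (x : X) (n : ℤ) : o (iterHomeo f N) x n = o f x (N * n) := by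
  obtain ⟨m, rfl | rfl⟩ := n.eq_nat_or_neg
  · rw [o_nat, iterHomeo_iter, ← o_nat]
    push_cast
    rfl
  · rw [o_neg, iterHomeo_symm_iter, ← o_neg]
    congr 1
    push_cast
    ring

theorem W_mul (f : X ≃ₜ X) (φ : X → ℝ) (N : ℕ) (x : X) (a b : ℤ) (hab : a ≤ b) :
    W (iterHomeo f N) (bs f φ N) x a b = W f φ x (N * a) (N * b) := by
  obtain ⟨k, rfl⟩ := Int.le.dest hab
  induction k with
  | zero => simp [W]
  | succ k ih =>
    have h1 := W_add (iterHomeo f N) (bs f φ N) x (a := a) (b := a + k) (c := a + (k + 1 : ℕ))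
      (by omega) (by push_cast; omega)
    rw [← h1, ih (by omega)]
    have h2 : Finset.Ico (a + (k : ℤ)) (a + ((k + 1 : ℕ) : ℤ)) = {a + (k : ℤ)} := by
      ext m
      simp only [Finset.mem_Ico, Finset.mem_singleton]
      push_cast
      omega
    have h3 : W (iterHomeo f N) (bs f φ N) x (a + k) (a + (k + 1 : ℕ)) =
        W f φ x (N * (a + k)) (N * (a + (k + 1 : ℕ))) := by
      conv_lhs => unfold W
      rw [h2, Finset.sum_singleton, o_power, ← W_nat, W_shift]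
      congr 1
      · ring
      · push_cast; ring
    rw [h3, W_add]
    · have : (0 : ℤ) ≤ N := by omega
      nlinarith
    · push_cast
      have : (0 : ℤ) ≤ N := by omega
      nlinarith

theorem W_sym (f : X ≃ₜ X) (φ : X → ℝ) (x y : X) (N : ℕ) :
    ∑ n ∈ Finset.range N, ((φ (f^[n] y) - φ (f^[n] x)) +
      (φ (f.symm^[n + 1] y) - φ (f.symm^[n + 1] x))) = W f φ y (-N) N - W f φ x (-N) N := by
  induction N with
  | zero => simp [W]
  | succ N ih =>
    rw [Finset.sum_range_succ, ih]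
    have key : ∀ z : X, W f φ z (-((N + 1 : ℕ) : ℤ)) ((N + 1 : ℕ) : ℤ) =
        φ (f.symm^[N + 1] z) + W f φ z (-N) N + φ (f^[N] z) := by
      intro z
      have h1 := W_add f φ z (a := -((N + 1 : ℕ) : ℤ)) (b := -N) (c := ((N + 1 : ℕ) : ℤ))
        (by push_cast; omega) (by push_cast; omega)
      have h2 := W_add f φ z (a := -N) (b := N) (c := ((N + 1 : ℕ) : ℤ))
        (by omega) (by push_cast; omega)
      have h3 : W f φ z (-((N + 1 : ℕ) : ℤ)) (-N) = φ (f.symm^[N + 1] z) := by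
        have : Finset.Ico (-((N + 1 : ℕ) : ℤ)) (-(N : ℤ)) = {-((N + 1 : ℕ) : ℤ)} := by
          ext m
          simp only [Finset.mem_Ico, Finset.mem_singleton]
          push_cast
          omega
        unfold W
        rw [this, Finset.sum_singleton, o_neg]
      have h4 : W f φ z N ((N + 1 : ℕ) : ℤ) = φ (f^[N] z) := by
        have : Finset.Ico (N : ℤ) ((N + 1 : ℕ) : ℤ) = {(N : ℤ)} := by
          ext m
          simp only [Finset.mem_Ico, Finset.mem_singleton]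
          push_cast
          omega
        unfold W
        rw [this, Finset.sum_singleton, o_nat]
      rw [← h1, ← h2, h3, h4]
      ring
    rw [key, key]
    ring

variable [CompactSpace X]

theorem unif_of_metric {𝒰 : Set (X × X)} (h : 𝒰 ∈ 𝓝ˢ (diagonal X)) :
    ∃ τ > 0, ∀ x y, dist x y < τ → (x, y) ∈ 𝒰 := by
  rw [nhdsSet_diagonal_eq_uniformity] at h
  obtain ⟨τ, hτ, h1⟩ := Metric.mem_uniformity_dist.mp h
  exact ⟨τ, hτ, fun x y hxy => h1 hxy⟩

theorem metric_mem_unif {τ : ℝ} (hτ : 0 < τ) :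
    {q : X × X | dist q.1 q.2 < τ} ∈ 𝓝ˢ (diagonal X) := by
  rw [nhdsSet_diagonal_eq_uniformity]
  exact Metric.dist_mem_uniformity hτ

theorem gibbs_transfer [MeasurableSpace X] (f : X ≃ₜ X) (N : ℕ) (hN : 1 ≤ N) {φ : X → ℝ} {B : ℝ}
    (hφ : ∀ x, |φ x| ≤ B) {C : ℝ} {μ : Measure X} (hG : IsGibbs f φ C μ) :
    GibbsD (iterHomeo f N) (bs f φ N) (C * Real.exp (4 * N * B)) μ := by
  intro O χ s hO hχ hinj hasy hsum
  have h1 : IsConjugating f O χ := by
    refine ⟨hO, hχ, hinj, fun 𝒰 h𝒰 => ?_⟩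
    obtain ⟨τ, hτ, hτ𝒰⟩ := unif_of_metric h𝒰
    obtain ⟨δ₁, hδ₁, hu1⟩ := unif_iter f N hτ
    obtain ⟨δ₂, hδ₂, hu2⟩ := unif_iter f.symm N hτ
    obtain ⟨K, hK⟩ := hasy (min δ₁ δ₂) (lt_min hδ₁ hδ₂)
    refine ⟨N * K, fun n hn z hz => ?_⟩
    have hq : K ≤ n / N := (Nat.le_div_iff_mul_le (by omega)).mpr (by rwa [mul_comm])
    obtain ⟨k1, k2⟩ := hK (n / N) hq z hz
    rw [o_nat, o_nat, iterHomeo_iter, iterHomeo_iter] at k1
    rw [o_neg, o_neg, iterHomeo_symm_iter, iterHomeo_symm_iter] at k2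
    constructor
    · apply hτ𝒰
      have h3 := hu1 _ _ (k1.trans_le (min_le_left _ _)) (n % N) (Nat.mod_lt _ (by omega))
      rwa [← Function.iterate_add_apply, ← Function.iterate_add_apply, Nat.mod_add_div] at h3
    · apply hτ𝒰
      have h3 := hu2 _ _ (k2.trans_le (min_le_right _ _)) (n % N) (Nat.mod_lt _ (by omega))
      rwa [← Function.iterate_add_apply, ← Function.iterate_add_apply, Nat.mod_add_div] at h3
  have h2 := hG O χ (s - 4 * N * B) h1 (fun z hz => by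
    obtain ⟨N₀, hN₀⟩ := hsum z hz
    refine ⟨N * N₀, fun n hn => ?_⟩
    rw [W_sym]
    have hq : N₀ ≤ n / N := (Nat.le_div_iff_mul_le (by omega)).mpr (by rwa [mul_comm])
    have h3 := hN₀ (n / N) hq
    rw [W_mul _ _ _ _ _ _ (by omega), W_mul _ _ _ _ _ _ (by omega)] at h3
    have h4 : N * (n / N) ≤ n := Nat.mul_div_le n N
    have h5 : n < N * (n / N) + N := Nat.lt_mul_div_succ n (by omega)
    set q := N * (n / N) with hqdef
    have e1 : (N : ℤ) * -((n / N : ℕ) : ℤ) = -(q : ℤ) := by rw [hqdef]; push_cast; ring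
    have e2 : (N : ℤ) * ((n / N : ℕ) : ℤ) = (q : ℤ) := by rw [hqdef]; push_cast; ring
    rw [e1, e2] at h3
    have hB0 : 0 ≤ B := (abs_nonneg _).trans (hφ z)
    have key : ∀ u : X, |W f φ u (-n) n - W f φ u (-q) q| ≤ 2 * N * B := by
      intro u
      have a1 := W_add f φ u (a := -n) (b := -q) (c := n) (by omega) (by omega)
      have a2 := W_add f φ u (a := -q) (b := q) (c := n) (by omega) (by omega)
      have a3 := abs_W_le f φ hφ u (a := -n) (b := -q) (by omega)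
      have a4 := abs_W_le f φ hφ u (a := q) (b := n) (by omega)
      push_cast at a3 a4
      have h6 : (n : ℝ) - q ≤ N := by
        have : (n : ℝ) < q + N := by exact_mod_cast h5
        linarith
      have h7 : W f φ u (-n) n - W f φ u (-q) q = W f φ u (-n) (-q) + W f φ u q n := by
        rw [← a1, ← a2]; ring
      rw [h7]
      refine (abs_add_le _ _).trans ?_
      have h8 : B * (-(q : ℝ) - -(n : ℝ)) ≤ B * N := mul_le_mul_of_nonneg_left (by linarith) hB0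
      have h9 : B * ((n : ℝ) - q) ≤ B * N := mul_le_mul_of_nonneg_left h6 hB0
      linarith
    have b1 := abs_le.mp (key z)
    have b2 := abs_le.mp (key (χ z))
    linarith [b1.2, b2.1])
  have h3 : Real.exp s = Real.exp (s - 4 * N * B) * Real.exp (4 * N * B) := by
    rw [← Real.exp_add]; congr 1; ring
  calc Real.exp s * μ.real O = Real.exp (4 * N * B) * (Real.exp (s - 4 * N * B) * μ.real O) := by
        rw [h3]; ring
    _ ≤ Real.exp (4 * N * B) * (C * μ.real (χ '' O)) :=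
        mul_le_mul_of_nonneg_left h2 (Real.exp_pos _).le
    _ = _ := by ring

theorem bow_of_bowen (f : X ≃ₜ X) {φ : X → ℝ} (h : BowenProperty f φ) (N : ℕ) :
    ∃ δ > 0, ∃ D, Bow (iterHomeo f N) (bs f φ N) δ D := by
  obtain ⟨𝒰, h𝒰, D, hD⟩ := h
  obtain ⟨τ, hτ, hτ𝒰⟩ := unif_of_metric h𝒰
  obtain ⟨δ, hδ, hu⟩ := unif_iter f N hτ
  refine ⟨δ / 2, half_pos hδ, D, fun x y n hxy => ?_⟩
  have e : ((iterHomeo f N : X ≃ₜ X) : X → X) = (f : X → X)^[N] := rfl
  rw [e, bs_iter, bs_iter]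
  refine hD (N * n) x y fun k hk => hτ𝒰 _ _ ?_
  rcases Nat.eq_zero_or_pos N with rfl | hN
  · simp at hk
  have h1 := hxy (k / N) (by
    rw [Nat.div_lt_iff_lt_mul hN]
    rwa [mul_comm])
  rw [iterHomeo_iter, iterHomeo_iter] at h1
  have h3 := hu _ _ (lt_of_le_of_lt h1 (half_lt_self hδ)) (k % N) (Nat.mod_lt _ hN)
  rwa [← Function.iterate_add_apply, ← Function.iterate_add_apply, Nat.mod_add_div] at h3

/-- The null set. -/
def Wand (g : X ≃ₜ X) : Set X :=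
  ⋃₀ {U | ∃ A R, MinAtt g A ∧ MinAtt g.symm R ∧ U = Bas g A ∩ Bas g.symm R}

theorem isOpen_Wand {g : X ≃ₜ X} {c : ℝ} (h : LP g c) : IsOpen (Wand g) := by
  refine isOpen_sUnion ?_
  rintro U ⟨A, R, hA, hR, rfl⟩
  exact (isOpen_bas h hA.1).inter (isOpen_bas h.symm hR.1)

theorem dense_Wand {g : X ≃ₜ X} {c : ℝ} (h : LP g c) : Dense (Wand g) := by
  intro x
  rw [Metric.mem_closure_iff]
  intro ε hε
  obtain ⟨A, hA, y, hy, hxy⟩ := dense_bas h x (half_pos hε)
  obtain ⟨η, hη, hball⟩ := Metric.isOpen_iff.mp (isOpen_bas h hA.1) y hy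
  obtain ⟨R, hR, z, hz, hyz⟩ := dense_bas h.symm y (lt_min hη (half_pos hε))
  refine ⟨z, ⟨_, ⟨A, R, hA, hR, rfl⟩, hball ?_, hz⟩, ?_⟩
  · rw [mem_ball, dist_comm]
    exact hyz.trans_le (min_le_left _ _)
  · have h1 := hyz.trans_le (min_le_right _ _)
    have := dist_triangle x y z
    linarith

theorem bas_preimage {g φ : X ≃ₜ X} (hc : ∀ x, φ (g x) = g (φ x)) {A : Set X} (x : X) :
    φ x ∈ Bas g A ↔ x ∈ Bas g (φ ⁻¹' A) := by
  constructor
  · rintro ⟨z, hz, h⟩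
    refine ⟨φ.symm z, ?_, ?_⟩
    · rw [mem_preimage, φ.apply_symm_apply]
      exact hz
    · have := h.map (φ := φ.symm) (comm_symm_left hc)
      rwa [φ.symm_apply_apply] at this
  · rintro ⟨z, hz, h⟩
    exact ⟨φ z, hz, h.map hc⟩

theorem Wand_inv {g φ : X ≃ₜ X} (hc : ∀ x, φ (g x) = g (φ x)) : φ ⁻¹' (Wand g) = Wand g := by
  have key : ∀ (φ : X ≃ₜ X) (_ : ∀ x, φ (g x) = g (φ x)) (x : X), φ x ∈ Wand g → x ∈ Wand g := by
    rintro φ hc x ⟨U, ⟨A, R, hA, hR, rfl⟩, h1, h2⟩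
    have hc' : ∀ x, φ (g.symm x) = g.symm (φ x) := comm_symm_right hc
    exact ⟨_, ⟨φ ⁻¹' A, φ ⁻¹' R, hA.preimage hc, hR.preimage hc', rfl⟩,
      (bas_preimage hc x).mp h1, (bas_preimage hc' x).mp h2⟩
  ext x
  refine ⟨fun h => key φ hc x h, fun h => ?_⟩
  refine key φ.symm (comm_symm_left hc) (φ x) ?_
  rwa [φ.symm_apply_apply]

end metric

section core

variable {E : Type*} [NormedAddCommGroup E] [NormedSpace ℝ E] [FiniteDimensional ℝ E]
  {M : Type*} [MetricSpace M] [CompactSpace M] [ConnectedSpace M] [ChartedSpace E M]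
  [IsManifold 𝓘(ℝ, E) ∞ M]
  {F : Type*} [NormedAddCommGroup F] [InnerProductSpace ℝ F]

theorem exists_sys_all {e : M → F} (hiso : ∀ x y, dist x y = ‖e x - e y‖)
    (he : ContMDiff 𝓘(ℝ, E) 𝓘(ℝ, F) 1 e) (hinj : ∀ x, Function.Injective (dm E e x))
    (f : Diffeomorph 𝓘(ℝ, E) 𝓘(ℝ, E) M M 1)
    (Es Eu : ∀ x : M, Submodule ℝ (TangentSpace 𝓘(ℝ, E) x)) (h : IsAnosov f Es Eu) :
    ∃ N₀ : ℕ, 1 ≤ N₀ ∧ ∀ N ≥ N₀, ∃ S : HypSys M F, S.g = iterHomeo f.toHomeomorph N := by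
  have : IsManifold 𝓘(ℝ, E) 1 M := isManifold_one
  obtain ⟨C, a, b, Ls, Lu, hE⟩ := eanosov_of_isAnosov e he hinj f Es Eu h
  obtain ⟨K, hK, hang⟩ := hE.angle he hinj
  have t1 : Tendsto (fun n : ℕ => K * (C * a ^ n)) atTop (𝓝 0) := by
    have := ((tendsto_pow_atTop_nhds_zero_of_lt_one hE.a_pos.le hE.a_lt).const_mul C).const_mul K
    simpa using this
  have t2 : Tendsto (fun n : ℕ => K * (C * b ^ n)) atTop (𝓝 0) := by
    have := ((tendsto_pow_atTop_nhds_zero_of_lt_one hE.b_pos.le hE.b_lt).const_mul C).const_mul K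
    simpa using this
  obtain ⟨N₀, hN₀⟩ := eventually_atTop.mp (((tendsto_order.mp t1).2 (1 / 16) (by norm_num)).and
    ((tendsto_order.mp t2).2 (1 / 16) (by norm_num)))
  refine ⟨N₀ + 1, by omega, fun N hN => ?_⟩
  obtain ⟨h1, h2⟩ := hN₀ N (by omega)
  obtain ⟨S, hS, -⟩ := exists_hypSys' hiso he hinj hE K hK hang N h1.le h2.le
  exact ⟨S, hS⟩

theorem core {e : M → F} (hiso : ∀ x y, dist x y = ‖e x - e y‖)
    (he : ContMDiff 𝓘(ℝ, E) 𝓘(ℝ, F) ∞ e) (hinj : ∀ x, Function.Injective (dm E e x))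
    (f : Diffeomorph 𝓘(ℝ, E) 𝓘(ℝ, E) M M 1)
    (Es Eu : ∀ x : M, Submodule ℝ (TangentSpace 𝓘(ℝ, E) x)) (hA : IsAnosov f Es Eu)
    [MeasurableSpace M] [BorelSpace M] (hnt : ¬ TopTransitive f) :
    ∃ U : Set M, IsOpen U ∧ Dense U ∧ f ⁻¹' U = U ∧ ∀ (φ : M → ℝ) (C : ℝ) (μ : Measure M),
      IsFiniteMeasure μ → Continuous φ → ((∀ x, LH φ x) ∨ BowenProperty f φ) →
      IsGibbs f.toHomeomorph φ C μ → μ U = 0 := by
  have : IsManifold 𝓘(ℝ, E) 1 M := isManifold_one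
  have he1 : ContMDiff 𝓘(ℝ, E) 𝓘(ℝ, F) 1 e := he.of_le (by simp)
  obtain ⟨N₀, hN₀1, hS⟩ := exists_sys_all hiso he1 hinj f Es Eu hA
  set F' : M ≃ₜ M := f.toHomeomorph with hF'
  set g := iterHomeo F' N₀ with hg
  obtain ⟨S₀, hS₀⟩ := hS N₀ le_rfl
  obtain ⟨c, hc⟩ := exists_LP S₀
  rw [hS₀] at hc
  have hcomm : ∀ x, F' (g x) = g (F' x) := by
    intro x
    show F' (F'^[N₀] x) = F'^[N₀] (F' x)
    rw [← Function.iterate_succ_apply' F', ← Function.iterate_succ_apply]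
  refine ⟨Wand g, isOpen_Wand hc, dense_Wand hc, Wand_inv hcomm, ?_⟩
  intro φ C μ hμ hφc hφ hG
  refine measure_null_of_locally_null _ ?_
  rintro x' ⟨U, ⟨A, R, hA', hR', rfl⟩, hx'⟩
  have hAR : Disjoint A R := by
    by_contra hcon
    have hRu := disjoint_or_univ hc hA' hR' hcon
    apply hnt
    have hun : ∀ A, IsAtt g.symm A → A = univ := by
      intro A₁ hA₁
      have := hR'.2 A₁ hA₁ (by rw [hRu]; exact subset_univ _)
      rw [hRu] at this
      exact univ_subset_iff.mp this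
    intro U V hU hUn hV hVn
    obtain ⟨n, z, ⟨v, hv, rfl⟩, hz⟩ := transitive_of_unique hc.symm hun V U hV hVn hU hUn
    refine ⟨N₀ * n, v, ⟨_, hz, ?_⟩, hv⟩
    show F'^[N₀ * n] (g.symm^[n] v) = v
    rw [← iterHomeo_iter, iterR]
  obtain ⟨N, c', A₀, R₀, p, r, x, hN, hsys, hA₀, hR₀, hAR₀, hp, hr, hgp, hgr, hxr, hxp, hx''⟩ :=
    structureB F' N₀ hN₀1 hS hA' hR' hAR hx'
  -- the potential
  obtain ⟨B, hB⟩ : ∃ B, ∀ x, |φ x| ≤ B := by
    obtain ⟨B, hB⟩ := isCompact_univ.exists_bound_of_continuousOn hφc.continuousOn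
    exact ⟨B, fun x => hB x (mem_univ x)⟩
  have hbsB : ∀ y, |bs F' φ N y| ≤ B * N := by
    intro y
    have := abs_W_le F' φ hB y (a := 0) (b := N) (by omega)
    rw [W_nat] at this
    simpa using this
  obtain ⟨δ, hδ, D, hD⟩ : ∃ δ > 0, ∃ D, Bow (iterHomeo F' N) (bs F' φ N) δ D := by
    rcases hφ with hφ | hφ
    · have hfl : ∀ n x, LH ((f : M → M)^[n]) x := fun n x =>
        self_lh hiso he1 hinj _ (iter_smooth f f.contMDiff n) x
      obtain ⟨C', α, r', hC', hα, hr', hHol⟩ := lh_uniform (lh_bs hfl hφ N)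
      obtain ⟨δ, hδ, D, -, hD⟩ := distortion hsys.lp (bs F' φ N) C' α r' hα hC' hr'
        (fun x y hxy => by
          have := hHol x y hxy
          rwa [Real.dist_eq] at this)
      exact ⟨δ, hδ, D, hD⟩
    · exact bow_of_bowen F' hφ N
  have hG' := gibbs_transfer F' N hN hB hG
  have hG'' : GibbsD (iterHomeo F' N) (bs F' φ N) (max (C * Real.exp (4 * N * B)) 0) μ := by
    intro O χ s h1 h2 h3 h4 h5
    exact (hG' O χ s h1 h2 h3 h4 h5).trans
      (mul_le_mul_of_nonneg_right (le_max_left _ _) measureReal_nonneg)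
  have hnull := null_basin hsys hA₀ hR₀ hAR₀ hp hr hgp hgr hxr hxp hbsB hδ hD μ (le_max_right _ _)
    hG''
  exact ⟨_, mem_nhdsWithin_of_mem_nhds
    (((isOpen_bas hsys.lp hA₀.1).inter (isOpen_bas hsys.lp.symm hR₀.1)).mem_nhds hx''), hnull⟩

end core

section final

variable {E : Type*} [NormedAddCommGroup E] [NormedSpace ℝ E] [FiniteDimensional ℝ E]
  {M : Type*} [TopologicalSpace M] [T2Space M] [CompactSpace M] [ConnectedSpace M]
  [ChartedSpace E M] [IsManifold 𝓘(ℝ, E) ∞ M]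

theorem final (f : Diffeomorph 𝓘(ℝ, E) 𝓘(ℝ, E) M M 1)
    (Es Eu : ∀ x : M, Submodule ℝ (TangentSpace 𝓘(ℝ, E) x)) (hA : IsAnosov f Es Eu)
    [MeasurableSpace M] [BorelSpace M] (hnt : ¬ TopTransitive f) :
    ∃ U : Set M, IsOpen U ∧ Dense U ∧ f ⁻¹' U = U ∧ ∀ (φ : M → ℝ) (C : ℝ) (μ : Measure M),
      IsFiniteMeasure μ → Continuous φ → (HolderInCharts E φ ∨ BowenProperty f φ) →
      IsGibbs f.toHomeomorph φ C μ → μ U = 0 := by
  obtain ⟨m, e, he, hemb, hinj⟩ := exists_embedding_euclidean_of_compact (I := 𝓘(ℝ, E)) (M := M)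
  let _ : MetricSpace M := hemb.isEmbedding.comapMetricSpace e
  have hiso : ∀ x y : M, dist x y = ‖e x - e y‖ := fun x y => dist_eq_norm (e x) (e y)
  have he1 : ContMDiff 𝓘(ℝ, E) (𝓡 m) 1 e := he.of_le (by simp)
  obtain ⟨U, h1, h2, h3, h4⟩ := core hiso he hinj f Es Eu hA hnt
  refine ⟨U, h1, h2, h3, fun φ C μ hμ hφc hφ hG => h4 φ C μ hμ hφc ?_ hG⟩
  rcases hφ with hφ | hφ
  · exact Or.inl (lh_of_holderInCharts hiso he1 hinj φ hφ)
  · exact Or.inr hφ

end final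

end Pool.Agent.W5h42.GS
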