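import Pool.Agent.W5h42.GS.Est
import Pool.Agent.W5h42.GS.Comb

set_option autoImplicit false

open Filter Topology Set Metric MeasureTheory

namespace Pool.Agent.W5h42.GS

open Pool.Agent.H721R2 Pool.Agent.H789R2.AN Pool.Agent.W5h70.AJ

variable {X : Type*} [MetricSpace X]

namespace Par

variable {g : X ≃ₜ X} {A R : Set X} {p r x : X} {φ : X → ℝ} (P : Par g A R p r x φ)

theorem disj_lt (i j : ℕ) {i₁ j₁ i₂ j₂ : ℕ}
    (h₁ : i₁ + j₁ + (2 * P.m + 2 * P.K + 2 * P.k) = i + j)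
    (h₂ : i₂ + j₂ + (2 * P.m + 2 * P.K + 2 * P.k) = i + j) {α₁ β₁ α₂ β₂ : X}
    (hα₂ : α₂ ∈ St g.symm R r P.η i₂) (hlt : i₁ < i₂) {y : X} (hy₁ : y ∈ P.Cyl i j i₁ α₁ β₁)
    (hy₂ : y ∈ P.Cyl i j i₂ α₂ β₂) : False := by
  have hk := P.k_pos
  have hε := P.ε_pos
  have hεθ := P.εθ
  have hηε := P.ηε
  have e1 : P.t₄ j = P.t₁ i + i₁ + 2 * P.k + j₁ := by unfold t₁ t₄; omega
  have e2 : P.t₄ j = P.t₁ i + i₂ + 2 * P.k + j₂ := by unfold t₁ t₄; omega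
  have a1 := hy₁ (P.t₁ i + i₁ + P.k) (Finset.mem_Ico.mpr ⟨by omega, by omega⟩)
  have a2 := hy₂ (P.t₁ i + i₁ + P.k) (Finset.mem_Ico.mpr ⟨by omega, by omega⟩)
  unfold core at a1 a2
  rw [glue_lt (by omega), glue_ge (by omega)] at a1
  simp only [add_neg_cancel, o_zero] at a1
  rw [glue_lt (by omega)] at a2
  rcases lt_or_ge (P.t₁ i + i₁ + (P.k : ℤ)) (P.t₁ i + i₂) with h3 | h3
  · rw [glue_lt h3] at a2
    obtain ⟨a, ha, hd⟩ := hα₂.2.2 (P.t₁ i + i₂ - (P.t₁ i + i₁ + P.k)) (by omega) (by omega)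
    rw [o_symm] at hd
    have e3 : -(P.t₁ i + i₂ - (P.t₁ i + i₁ + P.k)) = P.t₁ i + i₁ + P.k + -(P.t₁ i + (i₂ : ℤ)) := by
      ring
    rw [e3] at hd
    have h4 := P.θR a ha
    rw [dist_comm] at a1
    have := dist_triangle4 x _ _ a |>.trans (add_le_add (add_le_add a1 a2) hd)
    linarith
  · rw [glue_ge h3] at a2
    have e3 : P.t₁ i + i₁ + P.k + -(P.t₁ i + i₂ + (P.k : ℤ)) = (i₁ : ℤ) - i₂ := by ring
    simp only [e3] at a2
    have h4 := P.θx ((i₁ : ℤ) - i₂) (by omega)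
    have := dist_triangle_left x (o g x ((i₁ : ℤ) - i₂)) (o g y (P.t₁ i + i₁ + P.k))
    linarith

theorem disj_eq (i j : ℕ) {i₁ j₁ : ℕ}
    (h₁ : i₁ + j₁ + (2 * P.m + 2 * P.K + 2 * P.k) = i + j) {ER EA : Finset X}
    (hER : (ER : Set X) ⊆ St g.symm R r P.η i₁) (hERs : Sepd g.symm P.ρ i₁ ER)
    (hEA : (EA : Set X) ⊆ St g A p P.η j₁) (hEAs : Sepd g P.ρ j₁ EA) {α₁ β₁ α₂ β₂ : X}
    (hα₁ : α₁ ∈ ER) (hα₂ : α₂ ∈ ER) (hβ₁ : β₁ ∈ EA) (hβ₂ : β₂ ∈ EA)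
    {y : X} (hy₁ : y ∈ P.Cyl i j i₁ α₁ β₁)
    (hy₂ : y ∈ P.Cyl i j i₁ α₂ β₂) : α₁ = α₂ ∧ β₁ = β₂ := by
  have hk := P.k_pos
  have hε := P.ε_pos
  have hηε := P.ηε
  have hερ := P.ερ
  have e1 : P.t₄ j = P.t₁ i + i₁ + 2 * P.k + j₁ := by unfold t₁ t₄; omega
  constructor
  · by_contra hne
    obtain ⟨l, hl0, hli, hl⟩ := hERs α₁ hα₁ α₂ hα₂ hne
    rcases hl0.eq_or_lt with rfl | hl1
    · rw [o_zero, o_zero] at hl
      have := dist_triangle_right α₁ α₂ r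
      linarith [(hER hα₁).1, (hER hα₂).1]
    · have a1 := hy₁ (P.t₁ i + i₁ - l) (Finset.mem_Ico.mpr ⟨by omega, by omega⟩)
      have a2 := hy₂ (P.t₁ i + i₁ - l) (Finset.mem_Ico.mpr ⟨by omega, by omega⟩)
      unfold core at a1 a2
      rw [glue_lt (by omega), glue_lt (by omega)] at a1 a2
      have e3 : P.t₁ i + i₁ - l + -(P.t₁ i + (i₁ : ℤ)) = -l := by ring
      rw [e3] at a1 a2
      rw [o_symm, o_symm] at hl
      have := dist_triangle_left (o g α₁ (-l)) (o g α₂ (-l)) (o g y (P.t₁ i + i₁ - l))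
      linarith
  · by_contra hne
    obtain ⟨l, hl0, hli, hl⟩ := hEAs β₁ hβ₁ β₂ hβ₂ hne
    rcases hli.eq_or_lt with rfl | hl1
    · have := dist_triangle_right (o g β₁ (j₁ : ℤ)) (o g β₂ (j₁ : ℤ)) p
      linarith [(hEA hβ₁).2.1, (hEA hβ₂).2.1]
    · have a1 := hy₁ (P.t₁ i + i₁ + 2 * P.k + l) (Finset.mem_Ico.mpr ⟨by omega, by omega⟩)
      have a2 := hy₂ (P.t₁ i + i₁ + 2 * P.k + l) (Finset.mem_Ico.mpr ⟨by omega, by omega⟩)
      unfold core at a1 a2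
      rw [glue_ge (by omega)] at a1 a2
      have e3 : P.t₁ i + i₁ + 2 * P.k + l + -(P.t₁ i + i₁ + 2 * (P.k : ℤ)) = l := by ring
      simp only [e3] at a1 a2
      have := dist_triangle_left (o g β₁ l) (o g β₂ l) (o g y (P.t₁ i + i₁ + 2 * P.k + l))
      linarith

/-- Pieces cover `T`. -/
theorem cover_T (i j : ℕ) (ER EA : ℕ → Finset X)
    (hERm : ∀ n, ∀ v ∈ St g.symm R r P.η n, ∃ v' ∈ ER n, ∀ k : ℤ, 0 ≤ k → k ≤ n →
      dist (o g.symm v k) (o g.symm v' k) ≤ P.ρ)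
    (hEAm : ∀ n, ∀ v ∈ St g A p P.η n, ∃ v' ∈ EA n, ∀ k : ℤ, 0 ≤ k → k ≤ n →
      dist (o g v k) (o g v' k) ≤ P.ρ)
    (covA : ∀ z ∈ P.T, ∀ j : ℤ, P.k₁ ≤ j → ∃ v ∈ St g A p P.η (2 * P.K + (j - P.k₁).toNat),
      ∀ n : ℤ, P.k₁ ≤ n → n ≤ j → dist (o g z n) (o g v (n - P.k₁ + P.K)) ≤ P.η)
    (covR : ∀ z ∈ P.T, ∀ j : ℤ, P.k₁ ≤ j → ∃ v ∈ St g.symm R r P.η (2 * P.K + (j - P.k₁).toNat),
      ∀ n : ℤ, P.k₁ ≤ n → n ≤ j → dist (o g.symm z n) (o g.symm v (n - P.k₁ + P.K)) ≤ P.η)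
    (hi : P.k₁ ≤ i) (hj : P.k₁ ≤ j) (hK : P.k₁ ≤ P.K) {z : X} (hz : z ∈ P.T) :
    ∃ α ∈ ER (i + (2 * P.K - P.k₁)), ∃ β ∈ EA (j + (2 * P.K - P.k₁)), z ∈ P.Pc i j α β := by
  have hη := P.η_pos
  have hηε := P.ηε
  have hερ := P.ερ
  have hε := P.ε_pos
  obtain ⟨v, hv, hv2⟩ := covA z hz j (by exact_mod_cast hj)
  obtain ⟨u, hu, hu2⟩ := covR z hz i (by exact_mod_cast hi)
  have e1 : 2 * P.K + ((j : ℤ) - P.k₁).toNat = j + (2 * P.K - P.k₁) := by omega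
  have e2 : 2 * P.K + ((i : ℤ) - P.k₁).toNat = i + (2 * P.K - P.k₁) := by omega
  rw [e1] at hv
  rw [e2] at hu
  obtain ⟨β, hβ, hβ2⟩ := hEAm _ v hv
  obtain ⟨α, hα, hα2⟩ := hERm _ u hu
  refine ⟨α, hα, β, hβ, hz, ?_, ?_⟩
  · intro n hn
    rw [Finset.mem_Icc] at hn
    have h1 := hv2 n hn.1 hn.2
    have h2 := hβ2 (n - P.k₁ + P.K) (by omega) (by omega)
    have := dist_triangle (o g z n) (o g v (n - P.k₁ + P.K)) (o g β (n - P.k₁ + P.K))
    linarith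
  · intro n hn
    rw [Finset.mem_Icc] at hn
    have h1 := hu2 n hn.1 hn.2
    have h2 := hα2 (n - P.k₁ + P.K) (by omega) (by omega)
    rw [o_symm, o_symm] at h1
    rw [o_symm, o_symm] at h2
    have := dist_triangle (o g z (-n)) (o g u (-(n - P.k₁ + P.K))) (o g α (-(n - P.k₁ + P.K)))
    linarith

/-- The set `T` is null. -/
theorem null [CompactSpace X] [MeasurableSpace X] [BorelSpace X] (μ : Measure X)
    [IsFiniteMeasure μ] {C : ℝ} (hC : 0 ≤ C) (hG : GibbsD g φ C μ) (hpA : p ∈ A) (hrR : r ∈ R)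
    (covA : ∀ z ∈ P.T, ∀ j : ℤ, P.k₁ ≤ j → ∃ v ∈ St g A p P.η (2 * P.K + (j - P.k₁).toNat),
      ∀ n : ℤ, P.k₁ ≤ n → n ≤ j → dist (o g z n) (o g v (n - P.k₁ + P.K)) ≤ P.η)
    (covR : ∀ z ∈ P.T, ∀ j : ℤ, P.k₁ ≤ j → ∃ v ∈ St g.symm R r P.η (2 * P.K + (j - P.k₁).toNat),
      ∀ n : ℤ, P.k₁ ≤ n → n ≤ j → dist (o g.symm z n) (o g.symm v (n - P.k₁ + P.K)) ≤ P.η)
    (hK : P.k₁ ≤ P.K) : μ.real P.T = 0 := by
  classical
  by_contra hT
  have hT0 : 0 < μ.real P.T := lt_of_le_of_ne measureReal_nonneg (Ne.symm hT)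
  have hρ := P.ρ_pos
  have hη := P.η_pos
  have hB0 : 0 ≤ P.B := (abs_nonneg _).trans (P.φB x)
  choose EA hEA hEAs hEAm using fun n : ℕ => exists_sepd g P.ρ hρ n (St g A p P.η n)
  choose ER hER hERs hERm using fun n : ℕ => exists_sepd g.symm P.ρ hρ n (St g.symm R r P.η n)
  obtain ⟨N₁, hN₁1, hN₁⟩ := exists_index_bound (X := X) P.ρ hρ
  set a : ℕ → ℝ := fun n => ∑ v ∈ EA n, Real.exp (W g φ v 0 n) with ha
  set b : ℕ → ℝ := fun n => ∑ v ∈ ER n, Real.exp (W g φ v (-n) 0) with hb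
  have hapos : ∀ n, 0 < a n := by
    intro n
    obtain ⟨v, hv, -⟩ := hEAm n p (p_mem_St hpA P.gp hη.le n)
    exact Finset.sum_pos (fun v _ => Real.exp_pos _) ⟨v, hv⟩
  have hgr' : g.symm r = r := by rw [Homeomorph.symm_apply_eq, P.gr]
  have hbpos : ∀ n, 0 < b n := by
    intro n
    obtain ⟨v, hv, -⟩ := hERm n r (p_mem_St hrR hgr' hη.le n)
    exact Finset.sum_pos (fun v _ => Real.exp_pos _) ⟨v, hv⟩
  set Q : ℝ := N₁ * Real.exp P.B with hQ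
  have hN₁R : (1 : ℝ) ≤ N₁ := by exact_mod_cast hN₁1
  have hexp1 : 1 ≤ Real.exp P.B := Real.one_le_exp hB0
  have hQ1 : 1 ≤ Q := one_le_mul_of_one_le_of_one_le hN₁R hexp1
  have hsumle : ∀ (n : ℕ) (F : Finset X) (w : X → ℝ), F.card ≤ N₁ ^ (n + 1) →
      (∀ v ∈ F, w v ≤ P.B * n) → ∑ v ∈ F, Real.exp (w v) ≤ Q ^ (n + 1) := by
    intro n F w hF hw
    calc ∑ v ∈ F, Real.exp (w v) ≤ ∑ v ∈ F, Real.exp (P.B * n) :=
          Finset.sum_le_sum fun v hv => Real.exp_le_exp.mpr (hw v hv)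
      _ = F.card * Real.exp (P.B * n) := by rw [Finset.sum_const, nsmul_eq_mul]
      _ ≤ (N₁ : ℝ) ^ (n + 1) * Real.exp P.B ^ (n + 1) := by
          apply mul_le_mul _ _ (Real.exp_pos _).le (by positivity)
          · exact_mod_cast hF
          · rw [mul_comm, Real.exp_nat_mul]
            exact pow_le_pow_right₀ hexp1 (Nat.le_succ n)
      _ = Q ^ (n + 1) := by rw [hQ, mul_pow]
  have hale : ∀ n, a n ≤ Q ^ (n + 1) := by
    intro n
    refine hsumle n _ _ (hN₁ g n _ (hEAs n)) fun v _ => ?_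
    have := (abs_le.mp (abs_W_le g φ P.φB v (a := 0) (b := n) (by omega))).2
    simpa using this
  have hble : ∀ n, b n ≤ Q ^ (n + 1) := by
    intro n
    refine hsumle n _ _ (hN₁ g.symm n _ (hERs n)) fun v _ => ?_
    have := (abs_le.mp (abs_W_le g φ P.φB v (a := -n) (b := 0) (by omega))).2
    simpa using this
  set L := 2 * P.m + 2 * P.K + 2 * P.k with hL
  set L' := 2 * P.K - P.k₁ with hL'
  set h := L + P.k₁ + 2 * P.m with hh
  refine comb a b Q (C * μ.real univ * Real.exp P.Dt / μ.real P.T) L L' h hapos hbpos hQ1 hale hble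
    fun i j hi hj => ?_
  -- choice of the best piece
  set I := (ER (i + L')) ×ˢ (EA (j + L')) with hI
  have hIne : I.Nonempty := by
    obtain ⟨v, hv, -⟩ := hEAm (j + L') p (p_mem_St hpA P.gp hη.le _)
    obtain ⟨u, hu, -⟩ := hERm (i + L') r (p_mem_St hrR hgr' hη.le _)
    exact ⟨(u, v), Finset.mem_product.mpr ⟨hu, hv⟩⟩
  set w : X × X → ℝ := fun q => Real.exp (W g φ q.1 (-((i + L' : ℕ) : ℤ)) 0) *
    Real.exp (W g φ q.2 0 ((j + L' : ℕ) : ℤ)) with hw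
  have hwpos : ∀ q, 0 < w q := fun q => by positivity
  obtain ⟨q, hqI, hq⟩ := Finset.exists_max_image I
    (fun q => μ.real (P.Pc i j q.1 q.2) / w q) hIne
  set Ms := μ.real (P.Pc i j q.1 q.2) / w q with hMs
  have hTle : μ.real P.T ≤ Ms * (b (i + L') * a (j + L')) := by
    have h1 : P.T ⊆ ⋃ q ∈ I, P.Pc i j q.1 q.2 := by
      intro z hz
      obtain ⟨α, hα, β, hβ, hzz⟩ := P.cover_T i j ER EA hERm hEAm covA covR (by omega) (by omega)
        hK hz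
      simp only [mem_iUnion]
      exact ⟨(α, β), Finset.mem_product.mpr ⟨hα, hβ⟩, hzz⟩
    calc μ.real P.T ≤ μ.real (⋃ q ∈ I, P.Pc i j q.1 q.2) := measureReal_mono h1 (measure_ne_top _ _)
      _ ≤ ∑ q ∈ I, μ.real (P.Pc i j q.1 q.2) := measureReal_biUnion_finset_le _ _
      _ ≤ ∑ q ∈ I, Ms * w q := by
          refine Finset.sum_le_sum fun q' hq' => ?_
          have := hq q' hq'
          rw [div_le_iff₀ (hwpos q')] at this
          exact this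
      _ = Ms * (b (i + L') * a (j + L')) := by
          rw [← Finset.mul_sum, hI, Finset.sum_product, hb, ha]
          simp only [hw]
          rw [Finset.sum_mul_sum]
  have hba : 0 < b (i + L') * a (j + L') := mul_pos (hbpos _) (hapos _)
  have hMs0 : 0 < Ms := by
    by_contra hcon
    have : Ms * (b (i + L') * a (j + L')) ≤ 0 :=
      mul_nonpos_of_nonpos_of_nonneg (not_lt.mp hcon) hba.le
    linarith
  have hne : (P.Pc i j q.1 q.2).Nonempty := by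
    by_contra hcon
    rw [not_nonempty_iff_eq_empty] at hcon
    rw [hMs, hcon] at hMs0
    simp at hMs0
  obtain ⟨zs, hzs⟩ := hne
  -- the sum over all cylinders
  have hLij : L ≤ i + j := by omega
  set J := (Finset.range (i + j - L + 1)).sigma (fun k => (ER k) ×ˢ (EA (i + j - L - k))) with hJ
  have hcyl : ∑ s ∈ J, μ.real (P.Cyl i j s.1 s.2.1 s.2.2) ≤ μ.real univ := by
    have hdisj : (J : Set (Σ _ : ℕ, X × X)).PairwiseDisjoint
        (fun s => P.Cyl i j s.1 s.2.1 s.2.2) := by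
      rintro ⟨i₁, α₁, β₁⟩ hs₁ ⟨i₂, α₂, β₂⟩ hs₂ hne
      rw [Finset.mem_coe, hJ, Finset.mem_sigma, Finset.mem_product, Finset.mem_range] at hs₁ hs₂
      simp only at hs₁ hs₂
      rw [Function.onFun, Set.disjoint_left]
      intro y hy₁ hy₂
      simp only at hy₁ hy₂
      rcases lt_trichotomy i₁ i₂ with hlt | heq | hlt
      · exact P.disj_lt i j (i₁ := i₁) (j₁ := i + j - L - i₁) (i₂ := i₂) (j₂ := i + j - L - i₂)
          (by omega) (by omega) (hER i₂ hs₂.2.1) hlt hy₁ hy₂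
      · subst heq
        obtain ⟨rfl, rfl⟩ := P.disj_eq i j (i₁ := i₁) (j₁ := i + j - L - i₁) (by omega) (hER i₁)
          (hERs i₁) (hEA _) (hEAs _) hs₁.2.1 hs₂.2.1 hs₁.2.2 hs₂.2.2 hy₁ hy₂
        exact hne rfl
      · exact P.disj_lt i j (i₁ := i₂) (j₁ := i + j - L - i₂) (i₂ := i₁) (j₂ := i + j - L - i₁)
          (by omega) (by omega) (hER i₁ hs₁.2.1) hlt hy₂ hy₁
    rw [← measureReal_biUnion_finset hdisj
      (fun s _ => (P.isClosed_Cyl i j s.1 s.2.1 s.2.2).measurableSet)]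
    exact measureReal_mono (subset_univ _)
  have hest : ∀ s ∈ J, Real.exp (W g φ s.2.1 (-(s.1 : ℤ)) 0) *
      Real.exp (W g φ s.2.2 0 ((i + j - L - s.1 : ℕ) : ℤ)) * (Real.exp (-P.Dt) * Ms) ≤
      C * μ.real (P.Cyl i j s.1 s.2.1 s.2.2) := by
    rintro ⟨i', α, β⟩ hs
    rw [hJ, Finset.mem_sigma, Finset.mem_product, Finset.mem_range] at hs
    simp only at hs ⊢
    have h1 := P.main_est μ hC hG i j (by omega) (by omega) hzs i' (i + j - L - i') (by omega)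
      (hER i' hs.2.1) (hEA _ hs.2.2)
    refine le_trans (le_of_eq ?_) h1
    have e1 : ((i : ℤ) + 2 * P.K - P.k₁) = ((i + L' : ℕ) : ℤ) := by omega
    have e2 : ((j : ℤ) + 2 * P.K - P.k₁) = ((j + L' : ℕ) : ℤ) := by omega
    rw [e1, e2, Real.exp_sub, Real.exp_sub, Real.exp_sub, Real.exp_add, Real.exp_neg, hMs, hw]
    field_simp
  have hfin : (∑ k ∈ Finset.range (i + j - L + 1), b k * a (i + j - L - k)) *
      (Real.exp (-P.Dt) * Ms) ≤ C * μ.real univ := by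
    have h1 : (∑ k ∈ Finset.range (i + j - L + 1), b k * a (i + j - L - k)) =
        ∑ s ∈ J, Real.exp (W g φ s.2.1 (-(s.1 : ℤ)) 0) *
          Real.exp (W g φ s.2.2 0 ((i + j - L - s.1 : ℕ) : ℤ)) := by
      rw [hJ, Finset.sum_sigma]
      refine Finset.sum_congr rfl fun k _ => ?_
      simp only [hb, ha]
      rw [Finset.sum_mul_sum, Finset.sum_product]
    rw [h1, Finset.sum_mul]
    calc _ ≤ ∑ s ∈ J, C * μ.real (P.Cyl i j s.1 s.2.1 s.2.2) := Finset.sum_le_sum hest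
      _ = C * ∑ s ∈ J, μ.real (P.Cyl i j s.1 s.2.1 s.2.2) := by rw [Finset.mul_sum]
      _ ≤ C * μ.real univ := mul_le_mul_of_nonneg_left hcyl hC
  -- conclusion
  set Sg := ∑ k ∈ Finset.range (i + j - L + 1), b k * a (i + j - L - k) with hSg
  have hSg0 : 0 ≤ Sg := Finset.sum_nonneg fun k _ => (mul_pos (hbpos _) (hapos _)).le
  rw [div_mul_eq_mul_div, le_div_iff₀ hT0]
  have h2 : Sg * μ.real P.T ≤ Sg * (Ms * (b (i + L') * a (j + L'))) :=
    mul_le_mul_of_nonneg_left hTle hSg0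
  have h3 : Sg * Ms ≤ C * μ.real univ * Real.exp P.Dt := by
    have h4 := mul_le_mul_of_nonneg_right hfin (Real.exp_pos P.Dt).le
    have h5 : Sg * (Real.exp (-P.Dt) * Ms) * Real.exp P.Dt = Sg * Ms := by
      have : Real.exp (-P.Dt) * Real.exp P.Dt = 1 := by rw [← Real.exp_add]; simp
      calc _ = Sg * Ms * (Real.exp (-P.Dt) * Real.exp P.Dt) := by ring
        _ = _ := by rw [this, mul_one]
    rwa [h5] at h4
  calc Sg * μ.real P.T ≤ Sg * (Ms * (b (i + L') * a (j + L'))) := h2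
    _ = Sg * Ms * (b (i + L') * a (j + L')) := by ring
    _ ≤ C * μ.real univ * Real.exp P.Dt * (b (i + L') * a (j + L')) :=
        mul_le_mul_of_nonneg_right h3 hba.le

end Par

end Pool.Agent.W5h42.GS
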