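import Pool.Agent.W5h70.AJ.Abs

set_option autoImplicit false

open Filter Topology Set Metric

namespace Pool.Agent.W5h42.GS

open Pool.Agent.H721R2 Pool.Agent.H789R2.AN Pool.Agent.W5h70.AJ

section orb

variable {X : Type*} [TopologicalSpace X]

/-- The point `gⁿ x` of the orbit of `x`, `n ∈ ℤ`. -/
def o (g : X ≃ₜ X) (x : X) (n : ℤ) : X := (g ^ n : X ≃ₜ X) x

@[simp] theorem o_zero (g : X ≃ₜ X) (x : X) : o g x 0 = x := by simp [o]

theorem o_add (g : X ≃ₜ X) (x : X) (m n : ℤ) : o g x (m + n) = o g (o g x m) n := by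
  unfold o
  rw [add_comm, zpow_add]
  rfl

theorem o_succ (g : X ≃ₜ X) (x : X) (n : ℤ) : o g x (n + 1) = g (o g x n) := by
  rw [o_add]
  unfold o
  rw [zpow_one]

theorem g_o (g : X ≃ₜ X) (x : X) (n : ℤ) : g (o g x n) = o g x (n + 1) := (o_succ g x n).symm

theorem o_nat (g : X ≃ₜ X) (x : X) (n : ℕ) : o g x n = g^[n] x := by
  induction n with
  | zero => simp
  | succ n ih =>
    rw [Function.iterate_succ_apply', ← ih]
    push_cast
    rw [o_succ]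

theorem o_symm (g : X ≃ₜ X) (x : X) (n : ℤ) : o g.symm x n = o g x (-n) := by
  unfold o
  have h : (g.symm : X ≃ₜ X) = g⁻¹ := rfl
  rw [h, inv_zpow, zpow_neg]

theorem o_neg (g : X ≃ₜ X) (x : X) (n : ℕ) : o g x (-n) = g.symm^[n] x := by
  rw [← o_symm, o_nat]

theorem continuous_o (g : X ≃ₜ X) (n : ℤ) : Continuous fun x => o g x n :=
  (g ^ n : X ≃ₜ X).continuous

theorem o_fixed {g : X ≃ₜ X} {p : X} (hp : g p = p) (n : ℤ) : o g p n = p := by
  have h1 : ∀ n : ℕ, o g p n = p := by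
    intro n
    rw [o_nat]
    exact Function.iterate_fixed hp n
  have h2 : ∀ n : ℕ, o g p (-n) = p := by
    intro n
    have := o_add g p n (-n)
    rw [h1] at this
    rw [← this]
    simp
  obtain ⟨m, rfl | rfl⟩ := n.eq_nat_or_neg
  · exact h1 m
  · exact h2 m

theorem o_mem {g : X ≃ₜ X} {A : Set X} (hA : ∀ x, g x ∈ A ↔ x ∈ A) (x : X) (n : ℤ) :
    o g x n ∈ A ↔ x ∈ A := by
  have h1 : ∀ (n : ℕ) (x : X), o g x n ∈ A ↔ x ∈ A := by
    intro n x
    induction n with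
    | zero => simp
    | succ n ih =>
      push_cast
      rw [o_succ, hA, ih]
  obtain ⟨m, rfl | rfl⟩ := n.eq_nat_or_neg
  · exact h1 m x
  · rw [← h1 m (o g x (-m)), ← o_add]
    simp

theorem orbit_eq {g : X ≃ₜ X} (y : ℤ → X) (hy : ∀ n, y (n + 1) = g (y n)) (n : ℤ) :
    y n = o g (y 0) n := by
  have h1 : ∀ (n : ℕ) (m : ℤ), y (m + n) = o g (y m) n := by
    intro n m
    induction n with
    | zero => simp
    | succ n ih =>
      push_cast
      rw [← add_assoc, hy, ih, o_succ]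
  obtain ⟨m, rfl | rfl⟩ := n.eq_nat_or_neg
  · simpa using h1 m 0
  · have := h1 m (-m)
    rw [neg_add_cancel] at this
    rw [this, ← o_add]
    simp

end orb

variable {X : Type*} [MetricSpace X]

/-- Shadowing. -/
def Sh (g : X ≃ₜ X) : Prop := ∀ ε > 0, ∃ δ > 0, ∀ ξ : ℤ → X,
  (∀ n, dist (g (ξ n)) (ξ (n + 1)) ≤ δ) → ∃ y, ∀ n, dist (o g y n) (ξ n) ≤ ε

/-- Local product structure and shadowing. -/
structure Sys (g : X ≃ₜ X) (c : ℝ) : Prop where
  lp : LP g c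
  sh : Sh g
  sh' : Sh g.symm

theorem Sys.symm {g : X ≃ₜ X} {c : ℝ} (h : Sys g c) : Sys g.symm c where
  lp := h.lp.symm
  sh := h.sh'
  sh' := h.sh

theorem sh_of_sys {E : Type*} [NormedAddCommGroup E] [NormedSpace ℝ E] [CompactSpace X]
    (S : HypSys X E) : Sh S.g := by
  intro ε hε
  obtain ⟨ε₀, hε₀, h⟩ := S.shadowing
  have hK := S.one_le_K
  have hK0 : 0 < 8 * S.K := by linarith
  refine ⟨min ε₀ (ε / (8 * S.K)), by positivity, fun ξ hξ => ?_⟩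
  obtain ⟨y, hy1, hy2⟩ := h _ (min_le_left _ _) ξ hξ
  refine ⟨y 0, fun n => ?_⟩
  rw [← orbit_eq y hy1 n]
  refine (hy2 n).trans ?_
  have h1 : min ε₀ (ε / (8 * S.K)) ≤ ε / (8 * S.K) := min_le_right _ _
  calc 8 * S.K * min ε₀ (ε / (8 * S.K)) ≤ 8 * S.K * (ε / (8 * S.K)) :=
        mul_le_mul_of_nonneg_left h1 hK0.le
    _ = ε := by field_simp

theorem exists_Sys {E : Type*} [NormedAddCommGroup E] [NormedSpace ℝ E] [CompactSpace X]
    (S : HypSys X E) : ∃ c, Sys S.g c := by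
  obtain ⟨c, hc⟩ := exists_LP S
  exact ⟨c, hc, sh_of_sys S, sh_of_sys S.symm⟩

theorem Sys.exp {g : X ≃ₜ X} {c : ℝ} (h : Sys g c) {x y : X}
    (hd : ∀ n, dist (o g x n) (o g y n) ≤ c) : x = y := by
  have := expansive h.lp (fun n => o g x n) (fun n => o g y n) (fun n => o_succ g x n)
    (fun n => o_succ g y n) hd
  simpa using this

/-- Forward closeness gives exponential closeness. -/
theorem Sys.fwd {g : X ≃ₜ X} {c : ℝ} (h : Sys g c) {x y : X} {a : ℤ}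
    (hd : ∀ n, a ≤ n → dist (o g x n) (o g y n) ≤ c) (n : ℤ) (hn : a ≤ n) :
    dist (o g x n) (o g y n) ≤ c * (1 / 2) ^ (n - a).toNat := by
  have h1 : SR g c (o g x a) (o g y a) := by
    intro k
    rw [← o_nat, ← o_nat, ← o_add, ← o_add]
    exact hd _ (by omega)
  have h2 := h.lp.cS _ _ h1 (n - a).toNat
  rw [← o_nat, ← o_nat, ← o_add, ← o_add] at h2
  have h3 : a + ((n - a).toNat : ℤ) = n := by omega
  rwa [h3] at h2

theorem Sys.bwd {g : X ≃ₜ X} {c : ℝ} (h : Sys g c) {x y : X} {a : ℤ}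
    (hd : ∀ n, n ≤ a → dist (o g x n) (o g y n) ≤ c) (n : ℤ) (hn : n ≤ a) :
    dist (o g x n) (o g y n) ≤ c * (1 / 2) ^ (a - n).toNat := by
  have h1 := h.symm.fwd (x := x) (y := y) (a := -a) (fun n hn => by
    rw [o_symm, o_symm]; exact hd _ (by omega)) (-n) (by omega)
  rw [o_symm, o_symm, neg_neg] at h1
  have h3 : -n - -a = a - n := by ring
  rwa [h3] at h1

theorem tendsto_half (c : ℝ) : Tendsto (fun n : ℕ => c * (1 / 2 : ℝ) ^ n) atTop (𝓝 0) := by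
  have := (tendsto_pow_atTop_nhds_zero_of_lt_one (by norm_num : (0:ℝ) ≤ 1 / 2)
    (by norm_num)).const_mul c
  simpa using this

theorem Sys.ws {g : X ≃ₜ X} {c : ℝ} (h : Sys g c) {x y : X} {a : ℤ}
    (hd : ∀ n, a ≤ n → dist (o g x n) (o g y n) ≤ c) : WS g x y := by
  have h1 : ∀ n, max a 0 ≤ n → dist (o g x n) (o g y n) ≤ c := fun n hn => hd n (by omega)
  rw [← WS.iter (max a 0).toNat]
  apply WS.of_SR (c := c)
  intro n
  have h2 := h.fwd h1 (n + max a 0) (by omega)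
  rw [← Function.iterate_add_apply, ← Function.iterate_add_apply, ← o_nat, ← o_nat]
  have h3 : ((n + (max a 0).toNat : ℕ) : ℤ) = n + max a 0 := by push_cast; omega
  rw [h3]
  have h4 : (n + max a 0 - max a 0).toNat = n := by omega
  rwa [h4] at h2

theorem Sys.ws' {g : X ≃ₜ X} {c : ℝ} (h : Sys g c) {x y : X} {a : ℤ}
    (hd : ∀ n, n ≤ a → dist (o g x n) (o g y n) ≤ c) : WS g.symm x y := by
  apply h.symm.ws (a := -a)
  intro n hn
  rw [o_symm, o_symm]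
  exact hd _ (by omega)

/-- Segment lemma over the integers. -/
theorem Sys.seg {g : X ≃ₜ X} {c : ℝ} (h : Sys g c) : ∃ δ > 0, ∀ (x y : X) (a b : ℤ),
    (∀ n, a ≤ n → n ≤ b → dist (o g x n) (o g y n) ≤ δ) → ∀ n, a ≤ n → n ≤ b →
      dist (o g x n) (o g y n) ≤ c * (1 / 2) ^ (n - a).toNat + c * (1 / 2) ^ (b - n).toNat := by
  obtain ⟨δ, hδ, h1⟩ := Pool.Agent.W5h70.AJ.seg h.lp
  refine ⟨δ, hδ, fun x y a b hab n hn hn' => ?_⟩
  have h2 := h1 (o g x a) (o g y a) (b - a + 1).toNat (fun k hk => by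
    rw [← o_nat, ← o_nat, ← o_add, ← o_add]
    exact hab _ (by omega) (by omega)) (n - a).toNat (by omega)
  rw [← o_nat, ← o_nat, ← o_add, ← o_add] at h2
  have h3 : a + ((n - a).toNat : ℤ) = n := by omega
  have h4 : (b - a + 1).toNat - 1 - (n - a).toNat = (b - n).toNat := by omega
  rwa [h3, h4] at h2

/-- Pseudo-orbits. -/
def PO (g : X ≃ₜ X) (δ : ℝ) (ξ : ℤ → X) : Prop := ∀ n, dist (g (ξ n)) (ξ (n + 1)) ≤ δ

theorem PO.mono {g : X ≃ₜ X} {δ δ' : ℝ} {ξ : ℤ → X} (h : PO g δ ξ) (hδ : δ ≤ δ') : PO g δ' ξ :=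
  fun n => (h n).trans hδ

theorem PO.shift {g : X ≃ₜ X} {δ : ℝ} {ξ : ℤ → X} (h : PO g δ ξ) (s : ℤ) :
    PO g δ (fun n => ξ (n + s)) := fun n => by
  have := h (n + s)
  rwa [add_right_comm] at this

theorem PO.orb (g : X ≃ₜ X) {δ : ℝ} (hδ : 0 ≤ δ) (x : X) (s : ℤ) :
    PO g δ (fun n => o g x (n + s)) := fun n => by
  show dist (g (o g x (n + s))) (o g x (n + 1 + s)) ≤ δ
  rw [g_o]
  have : n + s + 1 = n + 1 + s := by ring
  rw [this, dist_self]
  exact hδ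

/-- Gluing at time `τ`. -/
def glue (τ : ℤ) (ξ ξ' : ℤ → X) (n : ℤ) : X := if n < τ then ξ n else ξ' n

omit [MetricSpace X] in
theorem glue_lt {τ : ℤ} {ξ ξ' : ℤ → X} {n : ℤ} (h : n < τ) : glue τ ξ ξ' n = ξ n := if_pos h

omit [MetricSpace X] in
theorem glue_ge {τ : ℤ} {ξ ξ' : ℤ → X} {n : ℤ} (h : τ ≤ n) : glue τ ξ ξ' n = ξ' n :=
  if_neg (not_lt.mpr h)

theorem PO.glue {g : X ≃ₜ X} {δ ν : ℝ} {ξ ξ' : ℤ → X} {τ : ℤ} (h : PO g δ ξ) (h' : PO g δ ξ')
    (hν : dist (ξ τ) (ξ' τ) ≤ ν) : PO g (δ + ν) (glue τ ξ ξ') := by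
  have hν0 : 0 ≤ ν := dist_nonneg.trans hν
  intro n
  rcases lt_trichotomy (n + 1) τ with h1 | h1 | h1
  · rw [glue_lt h1, glue_lt (by omega)]
    linarith [h n]
  · rw [glue_ge h1.ge, glue_lt (by omega)]
    have h2 := h n
    rw [h1] at h2 ⊢
    have := dist_triangle (g (ξ n)) (ξ τ) (ξ' τ)
    linarith
  · rw [glue_ge h1.le, glue_ge (by omega)]
    linarith [h' n]

end Pool.Agent.W5h42.GS
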