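import Pool.Agent.W5h42.GS.Att
import Pool.Agent.H721R2.Build

set_option autoImplicit false

open Filter Topology Set Metric

namespace Pool.Agent.W5h42.GS

open Pool.Agent.H721R2 Pool.Agent.H789R2.AN Pool.Agent.W5h70.AJ

variable {X : Type*} [MetricSpace X]

theorem iterHomeo_apply (g : X ≃ₜ X) (N : ℕ) (x : X) : iterHomeo g N x = g^[N] x := rfl

theorem iterHomeo_symm_apply (g : X ≃ₜ X) (N : ℕ) (x : X) :
    (iterHomeo g N).symm x = g.symm^[N] x := rfl

theorem iterHomeo_iter (g : X ≃ₜ X) (N k : ℕ) (x : X) : (iterHomeo g N)^[k] x = g^[N * k] x := by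
  rw [Function.iterate_mul]
  rfl

theorem iterHomeo_symm_iter (g : X ≃ₜ X) (N k : ℕ) (x : X) :
    (iterHomeo g N).symm^[k] x = g.symm^[N * k] x := by
  rw [Function.iterate_mul]
  rfl

/-- Closeness of finitely many iterates. -/
theorem unif_iter [CompactSpace X] (g : X ≃ₜ X) (N : ℕ) {ε : ℝ} (hε : 0 < ε) :
    ∃ δ > 0, ∀ x y, dist x y < δ → ∀ i < N, dist (g^[i] x) (g^[i] y) < ε := by
  induction N with
  | zero => exact ⟨1, one_pos, fun x y _ i hi => absurd hi (Nat.not_lt_zero _)⟩
  | succ N ih =>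
    obtain ⟨δ, hδ, h1⟩ := ih
    have hu : UniformContinuous (g^[N]) :=
      CompactSpace.uniformContinuous_of_continuous (g.continuous.iterate N)
    rw [Metric.uniformContinuous_iff] at hu
    obtain ⟨δ', hδ', h2⟩ := hu ε hε
    refine ⟨min δ δ', lt_min hδ hδ', fun x y hxy i hi => ?_⟩
    rcases Nat.lt_succ_iff_lt_or_eq.mp hi with h3 | rfl
    · exact h1 x y (hxy.trans_le (min_le_left _ _)) i h3
    · exact h2 (hxy.trans_le (min_le_right _ _))

theorem ws_iter_iff [CompactSpace X] (g : X ≃ₜ X) {N : ℕ} (hN : 1 ≤ N) (x y : X) :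
    WS (iterHomeo g N) x y ↔ WS g x y := by
  constructor
  · intro h
    refine tendsto_order.mpr ⟨fun a ha => Eventually.of_forall fun n =>
      lt_of_lt_of_le ha dist_nonneg, fun a ha => ?_⟩
    obtain ⟨δ, hδ, h1⟩ := unif_iter g N ha
    obtain ⟨m, hm⟩ := h.eventually_lt hδ
    filter_upwards [eventually_ge_atTop (N * m)] with n hn
    have h2 := hm (n / N) ((Nat.le_div_iff_mul_le (by omega)).mpr (by rwa [mul_comm]))
    rw [iterHomeo_iter, iterHomeo_iter] at h2
    have h3 := h1 _ _ h2 (n % N) (Nat.mod_lt _ (by omega))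
    rw [← Function.iterate_add_apply, ← Function.iterate_add_apply, Nat.mod_add_div] at h3
    exact h3
  · intro h
    refine tendsto_order.mpr ⟨fun a ha => Eventually.of_forall fun n =>
      lt_of_lt_of_le ha dist_nonneg, fun a ha => ?_⟩
    obtain ⟨m, hm⟩ := h.eventually_lt ha
    filter_upwards [eventually_ge_atTop m] with n hn
    rw [iterHomeo_iter, iterHomeo_iter]
    exact hm _ (hn.trans (Nat.le_mul_of_pos_left n (by omega)))

theorem ws_iter_symm_iff [CompactSpace X] (g : X ≃ₜ X) {N : ℕ} (hN : 1 ≤ N) (x y : X) :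
    WS (iterHomeo g N).symm x y ↔ WS g.symm x y := ws_iter_iff g.symm hN x y

/-- A minimal attractor of `g` is a union of minimal attractors of `g^N`. -/
theorem min_power [CompactSpace X] {g : X ≃ₜ X} {A : Set X} (hA : MinAtt g A) {N : ℕ}
    (hN : 1 ≤ N) {a : X} (ha : a ∈ A) :
    ∃ B ⊆ A, MinAtt (iterHomeo g N) B ∧ a ∈ B ∧ ∀ p ∈ A, ∃ i : ℕ, g^[i] p ∈ B := by
  set G := iterHomeo g N with hG
  have hGA : IsAtt G A := by
    refine ⟨hA.1.closed, hA.1.nonempty, fun x => inv_iter hA.1.inv N x, fun x hx y hxy => ?_⟩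
    exact hA.1.sat x hx y ((ws_iter_symm_iff g hN x y).mp hxy)
  obtain ⟨B₀, hB₀A, hB₀⟩ := exists_minAtt hGA
  set U : Set X := ⋃ i ∈ Finset.range N, g^[i] ⁻¹' B₀ with hU
  have hUmem : ∀ x, x ∈ U ↔ ∃ i < N, g^[i] x ∈ B₀ := by
    intro x
    simp [hU]
  have hUatt : IsAtt g U := by
    refine ⟨?_, ?_, ?_, ?_⟩
    · exact isClosed_biUnion_finset fun i _ => hB₀.1.closed.preimage (g.continuous.iterate i)
    · obtain ⟨b, hb⟩ := hB₀.1.nonempty
      exact ⟨b, (hUmem b).mpr ⟨0, by omega, hb⟩⟩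
    · intro x
      rw [hUmem, hUmem]
      constructor
      · rintro ⟨i, hi, h1⟩
        rw [← Function.iterate_succ_apply] at h1
        rcases Nat.lt_or_ge (i + 1) N with h2 | h2
        · exact ⟨i + 1, h2, h1⟩
        · have h3 : i + 1 = N := by omega
          rw [Nat.succ_eq_add_one, h3] at h1
          exact ⟨0, by omega, (hB₀.1.inv x).mp h1⟩
      · rintro ⟨i, hi, h1⟩
        rcases Nat.eq_zero_or_pos i with rfl | h2
        · refine ⟨N - 1, by omega, ?_⟩
          rw [← Function.iterate_succ_apply]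
          have h3 : (N - 1).succ = N := by omega
          rw [h3]
          exact (hB₀.1.inv x).mpr h1
        · refine ⟨i - 1, by omega, ?_⟩
          rw [← Function.iterate_succ_apply]
          have h3 : (i - 1).succ = i := by omega
          rw [h3]
          exact h1
    · intro x hx y hxy
      rw [hUmem] at hx ⊢
      obtain ⟨i, hi, h1⟩ := hx
      refine ⟨i, hi, hB₀.1.sat _ h1 _ ?_⟩
      rw [ws_iter_symm_iff g hN]
      exact hxy.mapIter (φ := g) (fun x => by simp) i
  have hUA : U ⊆ A := by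
    intro x hx
    obtain ⟨i, -, h1⟩ := (hUmem x).mp hx
    exact (inv_iter hA.1.inv i x).mp (hB₀A h1)
  have hAU : A ⊆ U := hA.2 U hUatt hUA
  obtain ⟨i, hi, hai⟩ := (hUmem a).mp (hAU ha)
  have hcomm : ∀ x, iterHomeo g i (G x) = G (iterHomeo g i x) := by
    intro x
    show g^[i] (g^[N] x) = g^[N] (g^[i] x)
    rw [← Function.iterate_add_apply, ← Function.iterate_add_apply, add_comm]
  refine ⟨iterHomeo g i ⁻¹' B₀, ?_, hB₀.preimage hcomm, hai, ?_⟩
  · intro x hx
    exact (inv_iter hA.1.inv i x).mp (hB₀A hx)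
  · intro p hp
    obtain ⟨j, hj, hpj⟩ := (hUmem p).mp (hAU hp)
    refine ⟨j + (N * i - i), ?_⟩
    show g^[i] (g^[j + (N * i - i)] p) ∈ B₀
    rw [← Function.iterate_add_apply]
    have h1 : i ≤ N * i := Nat.le_mul_of_pos_left i (by omega)
    have h2 : i + (j + (N * i - i)) = N * i + j := by omega
    rw [h2, Function.iterate_add_apply, ← iterHomeo_iter]
    exact (inv_iter hB₀.1.inv i _).mpr hpj

/-- The dichotomy between a minimal attractor and a minimal repeller. -/
theorem disjoint_or_univ [CompactSpace X] [ConnectedSpace X] {g : X ≃ₜ X} {c : ℝ} (h : LP g c)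
    {A R : Set X} (hA : MinAtt g A) (hR : MinAtt g.symm R) (hne : ¬ Disjoint A R) :
    R = univ := by
  have key : ∀ (g : X ≃ₜ X) (_ : LP g c) (A R : Set X) (_ : MinAtt g A) (_ : MinAtt g.symm R)
      (_ : (A ∩ R).Nonempty), A ⊆ R := by
    intro g h A R hA hR hne
    have hopen : IsOpen (Bas g.symm R) := isOpen_bas h.symm hR.1
    have hAB : A ⊆ Bas g.symm R := by
      intro a ha
      obtain ⟨b, hbA, hbR⟩ := hne
      obtain ⟨n, -, y, hy, hyV⟩ := min_dense h hA ha h.c_pos hopen
        ⟨b, subset_bas _ _ hbR, hbA⟩ 0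
      have h1 : y ∈ Bas g.symm R := by
        rw [← inv_iter (g := g) (A := Bas g.symm R) (fun x => by
          have := bas_map (g := g.symm) (φ := g) (fun x => by simp) (A := R)
            (fun x => by rw [← hR.1.inv (g x), g.symm_apply_apply]) x
          exact this) n y]
        exact hyV
      obtain ⟨z, hz, hyz⟩ := h1
      exact ⟨z, hz, (WS.of_SR (h.cU _ _ hy)).trans hyz⟩
    intro a ha
    by_contra haR
    obtain ⟨w, hw, haw⟩ := exists_repeller h.symm hR.1 haR
    rw [Homeomorph.symm_symm] at haw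
    -- a limit point of the forward orbit
    obtain ⟨y, -, φ, hφ, hlim⟩ := isCompact_univ.tendsto_subseq
      (fun n : ℕ => mem_univ (g^[n] a))
    have hyA : y ∈ A := by
      rw [← hA.1.closed.closure_eq]
      refine mem_closure_of_tendsto hlim (Eventually.of_forall fun n => ?_)
      exact (inv_iter hA.1.inv _ a).mpr ha
    have hlim2 : Tendsto (fun n => g^[φ n] w) atTop (𝓝 y) := by
      have h1 : Tendsto (fun n => dist (g^[φ n] a) (g^[φ n] w)) atTop (𝓝 0) :=
        haw.comp hφ.tendsto_atTop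
      have h2 := tendsto_iff_dist_tendsto_zero.mp hlim
      rw [tendsto_iff_dist_tendsto_zero]
      have h3 := h1.add h2
      rw [add_zero] at h3
      refine squeeze_zero (fun _ => dist_nonneg) (fun n => ?_) h3
      have := dist_triangle (g^[φ n] w) (g^[φ n] a) y
      rwa [dist_comm (g^[φ n] w) (g^[φ n] a)] at this
    obtain ⟨n, hn⟩ := (hlim2.eventually (hopen.mem_nhds (hAB hyA))).exists
    apply hw
    rw [← inv_iter (g := g) (A := Bas g.symm R) (fun x => by
      have := bas_map (g := g.symm) (φ := g) (fun x => by simp) (A := R)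
        (fun x => by rw [← hR.1.inv (g x), g.symm_apply_apply]) x
      exact this) (φ n) w]
    exact hn
  have hne' : (A ∩ R).Nonempty := not_disjoint_iff_nonempty_inter.mp hne
  have h1 := key g h A R hA hR hne'
  have h2 := key g.symm h.symm R A hR (by rwa [Homeomorph.symm_symm]) (by rwa [inter_comm])
  have hAR : A = R := h1.antisymm h2
  have hopen : IsOpen R := by
    rw [Metric.isOpen_iff]
    intro r hr
    obtain ⟨δ, hδ, hlp⟩ := h.lp c h.c_pos
    refine ⟨δ, hδ, fun y hy => ?_⟩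
    obtain ⟨z, hz1, hz2⟩ := hlp y r (mem_ball.mp hy)
    have hzA : z ∈ A := hA.1.sat r (hAR ▸ hr) z (WS.of_SR (h.cU _ _ hz2))
    have hzR : z ∈ R := hAR ▸ hzA
    refine hR.1.sat z hzR y ?_
    rw [Homeomorph.symm_symm]
    exact (WS.of_SR (h.cS _ _ hz1)).symm'
  exact IsClopen.eq_univ ⟨hR.1.closed, hopen⟩ hR.1.nonempty

end Pool.Agent.W5h42.GS
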