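import Pool.Agent.W5h42.GS.Str

set_option autoImplicit false

open Filter Topology Set Metric

namespace Pool.Agent.W5h42.GS

open Pool.Agent.H721R2 Pool.Agent.H789R2.AN Pool.Agent.W5h70.AJ

variable {X : Type*} [MetricSpace X]

theorem dist_o_tendsto {g : X ≃ₜ X} {x y : X} (h : WS g x y) {ε : ℝ} (hε : 0 < ε) :
    ∃ m : ℤ, 0 ≤ m ∧ ∀ n ≥ m, dist (o g x n) (o g y n) < ε := by
  obtain ⟨m, hm⟩ := h.eventually_lt hε
  refine ⟨m, by omega, fun n hn => ?_⟩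
  have h1 := hm n.toNat (by omega)
  rw [← o_nat, ← o_nat] at h1
  have : (n.toNat : ℤ) = n := by omega
  rwa [this] at h1

theorem heteroclinic [CompactSpace X] {g : X ≃ₜ X} {c : ℝ} (h : Sys g c) {A : Set X}
    (hA : MinAtt g A) {p r y a : X} (hp : p ∈ A) (hgp : g p = p) (ha : a ∈ A)
    (hyr : WS g.symm y r) (hya : WS g y a) : ∃ x, WS g.symm x r ∧ WS g x p := by
  have hc := h.lp.c_pos
  obtain ⟨δ, hδ, hsh⟩ := h.sh c hc
  obtain ⟨k, hk0, hk⟩ := dist_o_tendsto hya (half_pos hδ)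
  obtain ⟨K₀, hK₀⟩ := conn_uniform h.lp hA hp hgp (half_pos hδ)
  obtain ⟨-, ζ, h1, h2, h3, h4⟩ := hK₀ K₀ le_rfl (o g a k) ((o_mem hA.1.inv a k).mpr ha)
  have hPO : PO g δ (glue k (fun n => o g y (n + 0)) (fun n => ζ (n + (-k)))) := by
    have := ((PO.orb g le_rfl y 0).mono (half_pos hδ).le).glue (h1.shift (-k)) (τ := k)
      (ν := δ / 2) (by
        simp only [add_zero, add_neg_cancel]
        rw [h2 0 le_rfl, o_zero]
        exact (hk k le_rfl).le)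
    exact this.mono (by linarith)
  obtain ⟨z, hz⟩ := hsh _ hPO
  refine ⟨z, ?_, ?_⟩
  · refine WS.trans (h.ws' (a := k - 1) fun n hn => ?_) hyr
    have := hz n
    rwa [glue_lt (by omega), add_zero] at this
  · refine h.ws (a := k + K₀) fun n hn => ?_
    have := hz n
    rw [glue_ge (by omega), h3 _ (by omega), o_fixed hgp] at this
    rwa [o_fixed hgp]

/-- The structure of non-transitive systems. -/
theorem structureA [CompactSpace X] [ConnectedSpace X] {E : Type*} [NormedAddCommGroup E]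
    [NormedSpace ℝ E] (f : X ≃ₜ X) (N₀ : ℕ) (hN₀ : 1 ≤ N₀)
    (hS : ∀ N ≥ N₀, ∃ S : HypSys X E, S.g = iterHomeo f N)
    (hnt : ¬ ∀ U V : Set X, IsOpen U → U.Nonempty → IsOpen V → V.Nonempty →
      ∃ n : ℕ, (f^[n] '' U ∩ V).Nonempty) :
    ∃ (N : ℕ) (c : ℝ) (A R : Set X) (p r x : X), 1 ≤ N ∧ Sys (iterHomeo f N) c ∧
      MinAtt (iterHomeo f N) A ∧ MinAtt (iterHomeo f N).symm R ∧ Disjoint A R ∧ p ∈ A ∧ r ∈ R ∧
      iterHomeo f N p = p ∧ iterHomeo f N r = r ∧ WS (iterHomeo f N).symm x r ∧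
      WS (iterHomeo f N) x p := by
  obtain ⟨S₀, hS₀⟩ := hS N₀ le_rfl
  set g := iterHomeo f N₀ with hg
  obtain ⟨c₀, hc₀⟩ := exists_LP S₀
  rw [hS₀] at hc₀
  -- a proper repeller
  obtain ⟨R₁, hR₁, hR₁u⟩ : ∃ R₁, IsAtt g.symm R₁ ∧ R₁ ≠ univ := by
    by_contra hcon
    push Not at hcon
    apply hnt
    intro U V hU hUn hV hVn
    obtain ⟨n, z, ⟨v, hv, rfl⟩, hz⟩ := transitive_of_unique hc₀.symm hcon V U hV hVn hU hUn
    refine ⟨N₀ * n, v, ⟨_, hz, ?_⟩, hv⟩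
    rw [← iterHomeo_iter, iterR]
  obtain ⟨R, hRR₁, hR⟩ := exists_minAtt hR₁
  have hRu : R ≠ univ := fun hh => hR₁u (by
    rw [hh] at hRR₁; exact univ_subset_iff.mp hRR₁)
  obtain ⟨r₁, hr₁, Nr, hNr, hr₁p⟩ : ∃ p ∈ R, ∃ N : ℕ, 1 ≤ N ∧ g^[N] p = p := by
    have h1 : MinAtt S₀.symm.g R := by
      show MinAtt S₀.g.symm R
      rw [hS₀]; exact hR
    obtain ⟨p, hp, N, hN, hpN⟩ := exists_periodic S₀.symm h1
    have h2 : g.symm^[N] p = p := by
      have : (S₀.symm.g : X → X) = g.symm := by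
        show (S₀.g.symm : X → X) = g.symm
        rw [hS₀]
      rwa [this] at hpN
    refine ⟨p, hp, N, hN, ?_⟩
    conv_lhs => rw [← h2]
    exact iterR g N p
  -- the attractor below r₁
  set T₀ : Set X := {y | ∃ i : ℕ, WS g.symm (g^[i] r₁) y} with hT₀
  have hT₀inv : ∀ y, g y ∈ T₀ ↔ y ∈ T₀ := by
    intro y
    constructor
    · rintro ⟨i, hi⟩
      have h1 : ∃ j : ℕ, WS g.symm (g^[j + 1] r₁) (g y) := by
        rcases Nat.eq_zero_or_pos i with rfl | h2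
        · refine ⟨Nr - 1, ?_⟩
          have h3 : Nr - 1 + 1 = Nr := by omega
          rw [h3, hr₁p]
          exact hi
        · refine ⟨i - 1, ?_⟩
          have h3 : i - 1 + 1 = i := by omega
          rw [h3]
          exact hi
      obtain ⟨j, hj⟩ := h1
      refine ⟨j, ?_⟩
      rw [Function.iterate_succ_apply'] at hj
      have := hj.mapIter (φ := g.symm) (fun _ => rfl) 1
      simpa using this
    · rintro ⟨i, hi⟩
      refine ⟨i + 1, ?_⟩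
      rw [Function.iterate_succ_apply']
      have := hi.mapIter (φ := g) (fun _ => by simp) 1
      simpa using this
  have hT : IsAtt g (closure T₀) := by
    refine ⟨isClosed_closure, ⟨r₁, subset_closure ⟨0, WS.refl _ _⟩⟩, fun y => ?_,
      closure_sat hc₀ ?_⟩
    · have e1 : g ⁻¹' T₀ = T₀ := by
        ext w
        exact hT₀inv w
      have e2 := g.preimage_closure T₀
      rw [e1] at e2
      rw [← mem_preimage, e2]
    · rintro y ⟨i, hi⟩ y' hy'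
      exact ⟨i, hi.trans hy'⟩
  obtain ⟨A, hAT, hA⟩ := exists_minAtt hT
  have hAR : Disjoint A R := by
    by_contra hcon
    exact hRu (disjoint_or_univ hc₀ hA hR hcon)
  obtain ⟨p₁, hp₁, Np, hNp, hp₁p⟩ : ∃ p ∈ A, ∃ N : ℕ, 1 ≤ N ∧ g^[N] p = p := by
    have h1 : MinAtt S₀.g A := by rw [hS₀]; exact hA
    have := exists_periodic S₀ h1
    rwa [hS₀] at this
  obtain ⟨a₀, ha₀⟩ := hA.1.nonempty
  obtain ⟨y, hyB, i, hyi⟩ := mem_closure_iff.mp (hAT ha₀) _ (isOpen_bas hc₀ hA.1)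
    (subset_bas _ _ ha₀)
  obtain ⟨a, ha, hya⟩ := hyB
  -- the power
  set M := Np * Nr with hM
  have hM1 : 1 ≤ M := Nat.mul_pos hNp hNr
  have hGeq : iterHomeo f (N₀ * M) = iterHomeo g M := by
    ext x
    show f^[N₀ * M] x = (f^[N₀])^[M] x
    rw [Function.iterate_mul]
  obtain ⟨S, hSg⟩ := hS (N₀ * M) (Nat.le_mul_of_pos_right N₀ hM1)
  obtain ⟨c, hc⟩ := exists_Sys S
  rw [hSg] at hc
  obtain ⟨A₀, hA₀A, hA₀, haA₀, hpA₀⟩ := min_power hA hM1 ha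
  have hrR : g^[i] r₁ ∈ R := by
    have : ∀ x, g x ∈ R ↔ x ∈ R := fun x => by
      rw [← hR.1.inv (g x), g.symm_apply_apply]
    exact (inv_iter this i r₁).mpr hr₁
  obtain ⟨R₀, hR₀R, hR₀, hrR₀, -⟩ := min_power hR hM1 hrR
  obtain ⟨i', hi'⟩ := hpA₀ p₁ hp₁
  have hfix : ∀ (q : X) (L : ℕ), g^[L] q = q → L ∣ M → ∀ j, iterHomeo g M (g^[j] q) = g^[j] q := by
    rintro q L hq ⟨L', hL'⟩ j
    show g^[M] (g^[j] q) = g^[j] q
    rw [← Function.iterate_add_apply, add_comm, Function.iterate_add_apply, hL',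
      Function.iterate_mul]
    congr 1
    exact Function.iterate_fixed hq L'
  rw [hGeq] at hc
  obtain ⟨x, hx1, hx2⟩ := heteroclinic hc hA₀ hi' (hfix p₁ Np hp₁p (Dvd.intro _ rfl) i')
    (r := g^[i] r₁) (y := y) (a := a) haA₀ ((ws_iter_symm_iff g hM1 _ _).mpr hyi.symm')
    ((ws_iter_iff g hM1 _ _).mpr hya)
  refine ⟨N₀ * M, c, A₀, R₀, g^[i'] p₁, g^[i] r₁, x, Nat.mul_pos hN₀ hM1, ?_⟩
  rw [hGeq]
  exact ⟨hc, hA₀, hR₀, hAR.mono hA₀A hR₀R, hi', hrR₀, hfix p₁ Np hp₁p (Dvd.intro _ rfl) i',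
    hfix r₁ Nr hr₁p (Dvd.intro_left _ rfl) i, hx1, hx2⟩

end Pool.Agent.W5h42.GS
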